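import Pool.Agent.H560TT.Core
import Pool.Agent.V11103.EFDefs

/-!
Graphs with three tight gadgets of sizes `1, b, c`: no connected EF1 allocation among `b + c`
agents for suitable additive valuations.
-/

set_option autoImplicit false

namespace Pool.Agent.H560TT

open Finset Pool.Agent.V11103.EF

variable {V : Type} [DecidableEq V]

/-- A valuation is additive if it has nonnegative values and is the sum of the values of the
elements. -/
def IsAdditive (u : Finset V → ℝ) : Prop :=
  (∀ S, 0 ≤ u S) ∧ ∀ S, u S = ∑ x ∈ S, u {x}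

/-- The allocation `A` is EF1 for the profile `v`: any vertex may be removed. -/
def IsEF1 {n : ℕ} (v : Fin n → Finset V → ℝ) (A : Fin n → Finset V) : Prop :=
  ∀ i j, v i (A j) ≤ v i (A i) ∨ ∃ o ∈ A j, v i ((A j).erase o) ≤ v i (A i)

/-- `G` universally guarantees connected EF1 (outer) allocations for all profiles of monotone
valuations. -/
def UniversallyGuaranteesMonotone (G : SimpleGraph V) : Prop :=
  ∀ n : ℕ, 1 ≤ n → ∀ v : Fin n → Finset V → ℝ, (∀ i S, 0 ≤ v i S) →
    (∀ i S T, S ⊆ T → v i S ≤ v i T) →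
    ∃ A : Fin n → Finset V, IsAllocation A ∧ IsConnectedAllocation G A ∧ IsEF1Outer G v A

/-- `G` has three tight gadgets with `s 0`, `s 1`, `s 2` vertices in the separating sets: there are
pairwise disjoint vertex sets `K 0`, `K 1`, `K 2` with `s k` elements and, for each `k`, further
`s k` nonempty sets `D ⟨k, i⟩`, such that all these sets are pairwise disjoint and every
neighbour of a vertex of `D ⟨k, i⟩` lies in `D ⟨k, i⟩` or in `K k`. -/
def TightTriple (G : SimpleGraph V) (s : Fin 3 → ℕ) : Prop :=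
  ∃ (K : Fin 3 → Finset V) (D : (k : Fin 3) × Fin (s k) → Set V),
    (∀ k, (K k).card = s k) ∧ (∀ k l, k ≠ l → Disjoint (K k) (K l)) ∧
    (∀ p, (D p).Nonempty) ∧ (∀ p q, p ≠ q → Disjoint (D p) (D q)) ∧
    (∀ p k, ∀ x ∈ D p, x ∉ K k) ∧
    ∀ p, ∀ x ∈ D p, ∀ y, G.Adj x y → y ∈ D p ∨ y ∈ K p.1

/-- connected sets meeting `D` but not `K` lie in `D` -/
theorem subset_of_conn {G : SimpleGraph V} {S : Finset V} {D : Set V} {K : Finset V}
    (hD : ∀ x ∈ D, ∀ y, G.Adj x y → y ∈ D ∨ y ∈ K) (hK : S ∩ K = ∅)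
    (hS : (G.induce (S : Set V)).Connected) {r : V} (hr : r ∈ S) (hrD : r ∈ D) :
    ∀ x ∈ S, x ∈ D := by
  intro x hx
  have hreach := hS.preconnected ⟨r, hr⟩ ⟨x, hx⟩
  obtain ⟨p⟩ := hreach
  have key : ∀ (a b : (S : Set V)) (_ : (G.induce (S : Set V)).Walk a b), a.1 ∈ D → b.1 ∈ D := by
    intro a b p
    induction p with
    | nil => exact id
    | @cons a' b' c' h p ih =>
      intro ha
      apply ih
      have hadj : G.Adj a'.1 b'.1 := h
      rcases hD _ ha _ hadj with h1 | h1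
      · exact h1
      · exfalso
        have : b'.1 ∈ S ∩ K := Finset.mem_inter.2 ⟨b'.2, h1⟩
        rw [hK] at this
        exact absurd this (Finset.notMem_empty _)
  exact key _ _ p hrD

section Values

variable (F : Fin 6 → Finset V) (W : Fin 6 → ℕ)

/-- weight of a vertex -/
def wt (x : V) : ℕ := ∑ k, if x ∈ F k then W k else 0

/-- value of a set -/
def tot (S : Finset V) : ℕ := ∑ x ∈ S, wt F W x

/-- the additive valuation -/
def uval (S : Finset V) : ℝ := ((tot F W S : ℕ) : ℝ)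

theorem uval_additive : IsAdditive (uval F W) := by
  refine ⟨fun S => Nat.cast_nonneg _, fun S => ?_⟩
  simp [uval, tot]

theorem tot_eq (S : Finset V) : tot F W S = ∑ k, W k * (S ∩ F k).card := by
  unfold tot wt
  rw [Finset.sum_comm]
  refine Finset.sum_congr rfl fun k _ => ?_
  rw [← Finset.sum_filter, Finset.sum_const, smul_eq_mul, mul_comm]
  congr 2

theorem tot_erase (S : Finset V) {o : V} (ho : o ∈ S) :
    tot F W S = tot F W (S.erase o) + wt F W o := by
  unfold tot
  rw [Finset.sum_erase_add _ _ ho]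

theorem wt_cases (hF : ∀ k l, k ≠ l → Disjoint (F k) (F l)) (o : V) :
    wt F W o = 0 ∨ ∃ k, o ∈ F k ∧ wt F W o = W k := by
  by_cases h : ∃ k, o ∈ F k
  · obtain ⟨k, hk⟩ := h
    right
    refine ⟨k, hk, ?_⟩
    unfold wt
    rw [Finset.sum_eq_single k]
    · simp [hk]
    · intro l _ hl
      have : o ∉ F l := fun h' => (Finset.disjoint_left.1 (hF l k hl)) h' hk
      simp [this]
    · simp
  · left
    unfold wt
    refine Finset.sum_eq_zero fun k _ => ?_
    have : o ∉ F k := fun h' => h ⟨k, h'⟩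
    simp [this]

/-- counts of a set -/
def cnt (S : Finset V) : Cnt :=
  ⟨(S ∩ F 0).card, (S ∩ F 1).card, (S ∩ F 2).card, (S ∩ F 3).card, (S ∩ F 4).card,
    (S ∩ F 5).card⟩

/-- the classes are covered exactly once by an allocation -/
theorem sum_class {n : ℕ} {A : Fin n → Finset V} (hA : IsAllocation A) (T : Finset V) :
    ∑ i, (A i ∩ T).card = T.card := by
  rw [← Finset.card_biUnion]
  · congr 1
    ext x
    simp only [Finset.mem_biUnion, Finset.mem_univ, true_and, Finset.mem_inter]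
    constructor
    · rintro ⟨_, _, h⟩; exact h
    · intro h
      obtain ⟨i, hi⟩ := hA.2 x
      exact ⟨i, hi, h⟩
  · intro i _ j _ hij
    exact (hA.1 i j hij).mono Finset.inter_subset_left Finset.inter_subset_left

end Values

/-- the six classes of vertices -/
theorem exists_classes {G : SimpleGraph V} {s : Fin 3 → ℕ} (h : TightTriple G s) :
    ∃ F : Fin 6 → Finset V, (F 0).card = s 0 ∧ (F 1).card = s 0 ∧ (F 2).card = s 1 ∧
      (F 3).card = s 1 ∧ (F 4).card = s 2 ∧ (F 5).card = s 2 ∧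
      (∀ k l, k ≠ l → Disjoint (F k) (F l)) ∧
      ∀ S : Finset V, (S.Nonempty → (G.induce (S : Set V)).Connected) → (cnt F S).Conn := by
  obtain ⟨K, D, hKc, hKK, hDn, hDD, hDK, hN⟩ := h
  choose rep hrep using hDn
  have hinj : ∀ p q, rep p ∈ D q → p = q := fun p q hpq => by
    by_contra hne
    exact (Set.disjoint_left.1 (hDD p q hne)) (hrep p) hpq
  let R : Fin 3 → Finset V := fun k => Finset.univ.image fun i : Fin (s k) => rep ⟨k, i⟩
  have hRm : ∀ k x, x ∈ R k ↔ ∃ i, rep ⟨k, i⟩ = x := fun k x => by simp [R]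
  have hRc : ∀ k, (R k).card = s k := fun k => by
    rw [Finset.card_image_of_injective]
    · simp
    · intro i j hij
      have hij' : rep ⟨k, i⟩ = rep ⟨k, j⟩ := hij
      have := hinj ⟨k, i⟩ ⟨k, j⟩ (by rw [hij']; exact hrep _)
      simpa using this
  have hRR : ∀ k l, k ≠ l → Disjoint (R k) (R l) := fun k l hkl => by
    rw [Finset.disjoint_left]
    intro x hx hx'
    obtain ⟨i, rfl⟩ := (hRm k _).1 hx
    obtain ⟨j, hj⟩ := (hRm l _).1 hx'
    have := hinj ⟨l, j⟩ ⟨k, i⟩ (by rw [hj]; exact hrep _)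
    exact hkl (congrArg Sigma.fst this).symm
  have hRK : ∀ k l, Disjoint (R k) (K l) := fun k l => by
    rw [Finset.disjoint_left]
    intro x hx hx'
    obtain ⟨i, rfl⟩ := (hRm k _).1 hx
    exact hDK _ l _ (hrep _) hx'
  -- the key property of connected sets
  have key : ∀ S : Finset V, (S.Nonempty → (G.induce (S : Set V)).Connected) → ∀ k,
      (S ∩ R k).card = 0 ∨ 1 ≤ (S ∩ K k).card ∨ ((S ∩ R k).card = 1 ∧
        (∀ l, l ≠ k → (S ∩ R l).card = 0) ∧ ∀ l, (S ∩ K l).card = 0) := by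
    intro S hS k
    by_cases h1 : S ∩ R k = ∅
    · left; rw [h1]; simp
    by_cases h2 : S ∩ K k = ∅
    · right; right
      obtain ⟨r, hr⟩ := Finset.nonempty_iff_ne_empty.2 h1
      rw [Finset.mem_inter] at hr
      obtain ⟨i, rfl⟩ := (hRm k _).1 hr.2
      have hsub := subset_of_conn (G := G) (D := D ⟨k, i⟩) (K := K k) (hN ⟨k, i⟩) h2
        (hS ⟨_, hr.1⟩) hr.1 (hrep _)
      refine ⟨?_, fun l hl => ?_, fun l => ?_⟩
      · rw [Finset.card_eq_one]
        refine ⟨rep ⟨k, i⟩, ?_⟩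
        ext y
        rw [Finset.mem_inter, Finset.mem_singleton]
        constructor
        · rintro ⟨hy, hy'⟩
          obtain ⟨j, rfl⟩ := (hRm k _).1 hy'
          rw [hinj ⟨k, j⟩ ⟨k, i⟩ (hsub _ hy)]
        · rintro rfl
          exact ⟨hr.1, hr.2⟩
      · rw [Finset.card_eq_zero, Finset.eq_empty_iff_forall_notMem]
        intro y hy
        rw [Finset.mem_inter] at hy
        obtain ⟨j, rfl⟩ := (hRm l _).1 hy.2
        exact hl (congrArg Sigma.fst (hinj ⟨l, j⟩ ⟨k, i⟩ (hsub _ hy.1)))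
      · rw [Finset.card_eq_zero, Finset.eq_empty_iff_forall_notMem]
        intro y hy
        rw [Finset.mem_inter] at hy
        exact hDK _ l _ (hsub _ hy.1) hy.2
    · right; left
      rw [Nat.one_le_iff_ne_zero, Ne, Finset.card_eq_zero]
      exact h2
  refine ⟨![R 0, K 0, R 1, K 1, R 2, K 2], hRc 0, hKc 0, hRc 1, hKc 1, hRc 2, hKc 2, ?_, ?_⟩
  · intro k l hkl
    fin_cases k <;> fin_cases l <;>
      first
        | exact absurd rfl hkl
        | exact hRK _ _
        | exact (hRK _ _).symm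
        | exact hRR _ _ (by decide)
        | exact hKK _ _ (by decide)
  · intro S hS
    have k0 := key S hS 0
    have k1 := key S hS 1
    have k2 := key S hS 2
    refine ⟨?_, ?_, ?_⟩
    · rcases k0 with h | h | ⟨h, h', h''⟩
      · exact Or.inl h
      · exact Or.inr (Or.inl h)
      · exact Or.inr (Or.inr ⟨h, h'' 0, h' 1 (by decide), h'' 1, h' 2 (by decide), h'' 2⟩)
    · rcases k1 with h | h | ⟨h, h', h''⟩
      · exact Or.inl h
      · exact Or.inr (Or.inl h)
      · exact Or.inr (Or.inr ⟨h' 0 (by decide), h'' 0, h, h'' 1, h' 2 (by decide), h'' 2⟩)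
    · rcases k2 with h | h | ⟨h, h', h''⟩
      · exact Or.inl h
      · exact Or.inr (Or.inl h)
      · exact Or.inr (Or.inr ⟨h' 0 (by decide), h'' 0, h' 1 (by decide), h'' 1, h, h'' 2⟩)

theorem ef1_step {F : Fin 6 → Finset V} (W : Fin 6 → ℕ)
    (hF : ∀ k l, k ≠ l → Disjoint (F k) (F l)) {S T : Finset V}
    (h : uval F W S ≤ uval F W T ∨ ∃ o ∈ S, uval F W (S.erase o) ≤ uval F W T) :
    tot F W S ≤ tot F W T ∨ ∃ k, 1 ≤ (S ∩ F k).card ∧ tot F W S ≤ tot F W T + W k := by
  rcases h with h | ⟨o, ho, h⟩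
  · left
    exact (Nat.cast_le (α := ℝ)).1 h
  · have h' : tot F W (S.erase o) ≤ tot F W T := (Nat.cast_le (α := ℝ)).1 h
    have h2 := tot_erase F W S ho
    rcases wt_cases F W hF o with h3 | ⟨k, hk, h3⟩
    · left; omega
    · right
      refine ⟨k, ?_, by omega⟩
      rw [Nat.one_le_iff_ne_zero, Ne, Finset.card_eq_zero]
      intro h0
      have : o ∈ S ∩ F k := Finset.mem_inter.2 ⟨ho, hk⟩
      rw [h0] at this
      exact absurd this (Finset.notMem_empty _)

theorem tot_val0 (F : Fin 6 → Finset V) (S : Finset V) :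
    tot F ![2, 4, 4, 4, 7, 2] S = (cnt F S).val0 := by
  rw [tot_eq, Fin.sum_univ_six]
  rfl

theorem tot_val1 (F : Fin 6 → Finset V) (S : Finset V) :
    tot F ![2, 4, 7, 2, 4, 4] S = (cnt F S).val1 := by
  rw [tot_eq, Fin.sum_univ_six]
  rfl

theorem tot_val (F : Fin 6 → Finset V) (S : Finset V) :
    tot F ![2, 2, 2, 2, 3, 2] S = (cnt F S).val := by
  rw [tot_eq, Fin.sum_univ_six]
  rfl

theorem R0_of {F : Fin 6 → Finset V} (hF : ∀ k l, k ≠ l → Disjoint (F k) (F l)) {S T : Finset V}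
    (h : uval F ![2, 4, 4, 4, 7, 2] S ≤ uval F ![2, 4, 4, 4, 7, 2] T ∨
      ∃ o ∈ S, uval F ![2, 4, 4, 4, 7, 2] (S.erase o) ≤ uval F ![2, 4, 4, 4, 7, 2] T) :
    Cnt.R0 (cnt F T).val0 (cnt F S) := by
  have := ef1_step _ hF h
  rw [tot_val0, tot_val0] at this
  unfold Cnt.R0
  rcases this with h | ⟨k, h1, h2⟩
  · left; omega
  · fin_cases k
    · left; simp at h2; omega
    · left; simp at h2; omega
    · left; simp at h2; omega
    · left; simp at h2; omega
    · right; exact ⟨h1, h2⟩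
    · left; simp at h2; omega

theorem R1_of {F : Fin 6 → Finset V} (hF : ∀ k l, k ≠ l → Disjoint (F k) (F l)) {S T : Finset V}
    (h : uval F ![2, 4, 7, 2, 4, 4] S ≤ uval F ![2, 4, 7, 2, 4, 4] T ∨
      ∃ o ∈ S, uval F ![2, 4, 7, 2, 4, 4] (S.erase o) ≤ uval F ![2, 4, 7, 2, 4, 4] T) :
    Cnt.R1 (cnt F T).val1 (cnt F S) := by
  have := ef1_step _ hF h
  rw [tot_val1, tot_val1] at this
  unfold Cnt.R1
  rcases this with h | ⟨k, h1, h2⟩
  · left; omega
  · fin_cases k
    · left; simp at h2; omega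
    · left; simp at h2; omega
    · right; exact ⟨h1, h2⟩
    · left; simp at h2; omega
    · left; simp at h2; omega
    · left; simp at h2; omega

theorem R_of {F : Fin 6 → Finset V} (hF : ∀ k l, k ≠ l → Disjoint (F k) (F l)) {S T : Finset V}
    (h : uval F ![2, 2, 2, 2, 3, 2] S ≤ uval F ![2, 2, 2, 2, 3, 2] T ∨
      ∃ o ∈ S, uval F ![2, 2, 2, 2, 3, 2] (S.erase o) ≤ uval F ![2, 2, 2, 2, 3, 2] T) :
    (cnt F S).val ≤ (cnt F T).val + 2 ∨
      (1 ≤ (cnt F S).γ ∧ (cnt F S).val ≤ (cnt F T).val + 3) := by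
  have := ef1_step _ hF h
  rw [tot_val, tot_val] at this
  rcases this with h | ⟨k, h1, h2⟩
  · left; omega
  · fin_cases k
    · left; simp at h2; omega
    · left; simp at h2; omega
    · left; simp at h2; omega
    · left; simp at h2; omega
    · right; exact ⟨h1, h2⟩
    · left; simp at h2; omega

theorem split_sum {b c : ℕ} {A : Fin (b + c) → Finset V} (hA : IsAllocation A) (T : Finset V) :
    ∑ i : Fin b, (A (Fin.castAdd c i) ∩ T).card + ∑ j : Fin c, (A (Fin.natAdd b j) ∩ T).card =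
      T.card := by
  rw [← sum_class hA T, Fin.sum_univ_add]

/-- the main case: `b, c ≥ 2` -/
theorem main2 {G : SimpleGraph V} {b c : ℕ} (hb : 2 ≤ b) (hc : 2 ≤ c)
    (h : TightTriple G ![1, b, c]) :
    ∃ u₁ u₂ : Finset V → ℝ, IsAdditive u₁ ∧ IsAdditive u₂ ∧
      ∀ A : Fin (b + c) → Finset V, IsAllocation A → IsConnectedAllocation G A →
        ¬ IsEF1 (Fin.append (fun _ : Fin b => u₁) (fun _ : Fin c => u₂)) A := by
  obtain ⟨F, f0, f1, f2, f3, f4, f5, hF, hC⟩ := exists_classes h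
  refine ⟨uval F ![2, 4, 7, 2, 4, 4], uval F ![2, 4, 4, 4, 7, 2], uval_additive _ _,
    uval_additive _ _, fun A hA hconn hE => ?_⟩
  refine core2 hb hc (fun i => cnt F (A (Fin.castAdd c i))) (fun j => cnt F (A (Fin.natAdd b j)))
    (fun i => hC _ (hconn _)) (fun i => hC _ (hconn _))
    ((split_sum hA _).trans f0) ((split_sum hA _).trans f1) ((split_sum hA _).trans f2)
    ((split_sum hA _).trans f3) ((split_sum hA _).trans f4) ((split_sum hA _).trans f5)
    ?_ ?_ ?_ ?_
  · intro i j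
    have := hE (Fin.natAdd b i) (Fin.natAdd b j)
    simp only [Fin.append_right] at this
    exact R0_of hF this
  · intro i j
    have := hE (Fin.natAdd b i) (Fin.castAdd c j)
    simp only [Fin.append_right] at this
    exact R0_of hF this
  · intro i j
    have := hE (Fin.castAdd c i) (Fin.natAdd b j)
    simp only [Fin.append_left] at this
    exact R1_of hF this
  · intro i j
    have := hE (Fin.castAdd c i) (Fin.castAdd c j)
    simp only [Fin.append_left] at this
    exact R1_of hF this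

/-- the case `b = 1` -/
theorem main1 {G : SimpleGraph V} {b c m : ℕ} (hm : 1 ≤ m) (hbc : b + c = m + 1)
    (h : TightTriple G ![1, 1, m]) :
    ∃ u : Finset V → ℝ, IsAdditive u ∧
      ∀ A : Fin (b + c) → Finset V, IsAllocation A → IsConnectedAllocation G A →
        ¬ IsEF1 (fun _ => u) A := by
  obtain ⟨F, f0, f1, f2, f3, f4, f5, hF, hC⟩ := exists_classes h
  refine ⟨uval F ![2, 2, 2, 2, 3, 2], uval_additive _ _, fun A hA hconn hE => ?_⟩
  have : Nonempty (Fin (b + c)) := ⟨⟨0, by omega⟩⟩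
  obtain ⟨i0, hi0⟩ := Finite.exists_min fun i => (cnt F (A i)).val
  exact core1 hm hbc (fun i => cnt F (A (Fin.castAdd c i))) (fun j => cnt F (A (Fin.natAdd b j)))
    (fun i => hC _ (hconn _)) (fun i => hC _ (hconn _))
    ((split_sum hA _).trans f0) ((split_sum hA _).trans f1) ((split_sum hA _).trans f2)
    ((split_sum hA _).trans f3) ((split_sum hA _).trans f4) ((split_sum hA _).trans f5)
    (cnt F (A i0)).val (fun i => hi0 _) (fun i => hi0 _)
    (fun i => R_of hF (hE _ _)) (fun i => R_of hF (hE _ _))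


omit [DecidableEq V] in
theorem TightTriple.perm {G : SimpleGraph V} {s t : Fin 3 → ℕ} (h : TightTriple G s)
    (σ : Equiv.Perm (Fin 3)) (ht : ∀ k, t k = s (σ k)) : TightTriple G t := by
  obtain rfl : t = fun k => s (σ k) := funext ht
  obtain ⟨K, D, hKc, hKK, hDn, hDD, hDK, hN⟩ := h
  refine ⟨fun k => K (σ k), fun p => D ⟨σ p.1, p.2⟩, fun k => hKc _, fun k l hkl => hKK _ _ ?_,
    fun p => hDn _, fun p q hpq => hDD _ _ ?_, fun p k => hDK _ _, fun p => hN _⟩
  · exact fun h => hkl (σ.injective h)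
  · rintro h
    apply hpq
    obtain ⟨k, i⟩ := p
    obtain ⟨l, j⟩ := q
    simp only [Sigma.mk.injEq] at h
    obtain ⟨h1, h2⟩ := h
    obtain rfl := σ.injective h1
    simp only [heq_eq_eq] at h2
    rw [h2]

/-- all cases -/
theorem main {G : SimpleGraph V} {b c : ℕ} (hb : 1 ≤ b) (hc : 1 ≤ c)
    (h : TightTriple G ![1, b, c]) :
    ∃ u₁ u₂ : Finset V → ℝ, IsAdditive u₁ ∧ IsAdditive u₂ ∧ (b = 1 ∨ c = 1 → u₁ = u₂) ∧
      ∀ A : Fin (b + c) → Finset V, IsAllocation A → IsConnectedAllocation G A →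
        ¬ IsEF1 (Fin.append (fun _ : Fin b => u₁) (fun _ : Fin c => u₂)) A := by
  have happ : ∀ u : Finset V → ℝ, Fin.append (fun _ : Fin b => u) (fun _ : Fin c => u) =
      fun _ => u := fun u => by
    funext i
    refine Fin.addCases (fun i => ?_) (fun i => ?_) i
    · rw [Fin.append_left]
    · rw [Fin.append_right]
  by_cases hb1 : b = 1
  · subst hb1
    obtain ⟨u, hu, hA⟩ := main1 (b := 1) (c := c) hc (by omega) h
    refine ⟨u, u, hu, hu, fun _ => rfl, ?_⟩
    rw [happ]
    exact hA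
  by_cases hc1 : c = 1
  · subst hc1
    have h' : TightTriple G ![1, 1, b] := h.perm (Equiv.swap 1 2) (fun k => by
      fin_cases k <;> rfl)
    obtain ⟨u, hu, hA⟩ := main1 (b := b) (c := 1) hb (by omega) h'
    refine ⟨u, u, hu, hu, fun _ => rfl, ?_⟩
    rw [happ]
    exact hA
  · obtain ⟨u₁, u₂, h1, h2, hA⟩ := main2 (by omega) (by omega) h
    exact ⟨u₁, u₂, h1, h2, fun h => by omega, hA⟩

omit [DecidableEq V] in
theorem IsAdditive.mono {u : Finset V → ℝ} (h : IsAdditive u) {S T : Finset V} (hST : S ⊆ T) :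
    u S ≤ u T := by
  rw [h.2 S, h.2 T]
  exact Finset.sum_le_sum_of_subset_of_nonneg hST fun x _ _ => h.1 _

/-- failure of the guarantee of Q1 -/
theorem not_guarantees {G : SimpleGraph V} {b c : ℕ} (hb : 1 ≤ b) (hc : 1 ≤ c)
    (h : TightTriple G ![1, b, c]) : ¬ UniversallyGuaranteesMonotone G := by
  intro hU
  obtain ⟨u₁, u₂, h1, h2, _, hA⟩ := main hb hc h
  obtain ⟨A, hA1, hA2, hA3⟩ := hU (b + c) (by omega)
    (Fin.append (fun _ : Fin b => u₁) (fun _ : Fin c => u₂))
    (fun i S => by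
      refine Fin.addCases (fun i => ?_) (fun i => ?_) i
      · rw [Fin.append_left]; exact h1.1 _
      · rw [Fin.append_right]; exact h2.1 _)
    (fun i S T hST => by
      refine Fin.addCases (fun i => ?_) (fun i => ?_) i
      · rw [Fin.append_left]; exact h1.mono hST
      · rw [Fin.append_right]; exact h2.mono hST)
  refine hA A hA1 hA2 fun i j => ?_
  rcases hA3 i j with h | ⟨o, ho, h⟩
  · exact Or.inl h
  · exact Or.inr ⟨o, ho.1, h⟩

end Pool.Agent.H560TT
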