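import Pool.Agent.H560TT.Large
import Pool.Agent.H560TT.Main

/-!
Three tight gadgets: non-traceability, and the complete gadget graphs.
-/

set_option autoImplicit false

namespace Pool.Agent.H560TT

open Finset Pool.Agent.V11103.EF

variable {V : Type} [DecidableEq V]

/-- connected EF1 (outer) allocations exist for all profiles of `n` monotone valuations -/
def GuaranteesMonotone (G : SimpleGraph V) (n : ℕ) : Prop :=
  ∀ v : Fin n → Finset V → ℝ, (∀ i S, 0 ≤ v i S) → (∀ i S T, S ⊆ T → v i S ≤ v i T) →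
    ∃ A : Fin n → Finset V, IsAllocation A ∧ IsConnectedAllocation G A ∧ IsEF1Outer G v A

/-- graphs with three tight gadgets have no Hamiltonian path -/
theorem not_traceable_of_tight {G : SimpleGraph V} {s : Fin 3 → ℕ} (hs : ∀ k, 1 ≤ s k)
    (h : TightTriple G s) : ¬ Traceable G := by
  rintro ⟨u, w, p, hp⟩
  obtain ⟨K, D, hKc, hKK, hDn, hDD, hDK, hN⟩ := h
  set L := p.length with hL
  set f : ℕ → V := p.getVert with hf
  have hinj : ∀ i j, i ≤ L → j ≤ L → f i = f j → i = j := fun i j hi hj hij =>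
    hp.isPath.getVert_injOn (by simpa using hi) (by simpa using hj) hij
  have hsurj : ∀ x, ∃ i, i ≤ L ∧ f i = x := fun x => by
    obtain ⟨i, hi, hi'⟩ := (SimpleGraph.Walk.mem_support_iff_exists_getVert).1 (hp.mem_support x)
    exact ⟨i, hi', hi⟩
  have hadj : ∀ i, i < L → G.Adj (f i) (f (i + 1)) := fun i hi => p.adj_getVert_succ hi
  -- one end is in a set of the gadget
  have key : ∀ k : Fin 3, ∃ q : (k : Fin 3) × Fin (s k), q.1 = k ∧ (f 0 ∈ D q ∨ f L ∈ D q) := by
    intro k
    by_contra hcon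
    push Not at hcon
    have h0 : ∀ i : Fin (s k), f 0 ∉ D ⟨k, i⟩ := fun i => (hcon ⟨k, i⟩ rfl).1
    have h1 : ∀ i : Fin (s k), f L ∉ D ⟨k, i⟩ := fun i => (hcon ⟨k, i⟩ rfl).2
    -- first positions
    have hfirst : ∀ i : Fin (s k), ∃ a, a < L ∧ f (a + 1) ∈ D ⟨k, i⟩ ∧ f a ∈ K k := by
      intro i
      classical
      obtain ⟨x, hx⟩ := hDn ⟨k, i⟩
      obtain ⟨n, hn, hnx⟩ := hsurj x
      have hex : ∃ n, n ≤ L ∧ f n ∈ D ⟨k, i⟩ := ⟨n, hn, by rw [hnx]; exact hx⟩
      have hmin := Nat.find_spec hex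
      set a := Nat.find hex with ha
      have ha0 : a ≠ 0 := fun h => h0 i (by rw [← h]; exact hmin.2)
      obtain ⟨b, hb⟩ := Nat.exists_eq_succ_of_ne_zero ha0
      rw [hb] at hmin
      have hb' : f b ∉ D ⟨k, i⟩ := fun h => Nat.find_min hex (m := b) (by omega) ⟨by omega, h⟩
      refine ⟨b, by omega, hmin.2, ?_⟩
      rcases hN ⟨k, i⟩ _ hmin.2 _ (hadj b (by omega)).symm with h | h
      · exact absurd h hb'
      · exact h
    choose a ha1 ha2 ha3 using hfirst
    have hainj : Function.Injective fun i => f (a i) := by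
      intro i j hij
      have h2 := hinj _ _ (ha1 i).le (ha1 j).le hij
      by_contra hne
      have h3 : (⟨k, i⟩ : (k : Fin 3) × Fin (s k)) ≠ ⟨k, j⟩ := by
        intro h
        apply hne
        simpa using h
      exact (Set.disjoint_left.1 (hDD _ _ h3)) (ha2 i) (by rw [h2]; exact ha2 j)
    have hsurjK : ∀ y ∈ K k, ∃ i, f (a i) = y := by
      have h2 : Finset.univ.image (fun i => f (a i)) = K k := by
        apply Finset.eq_of_subset_of_card_le
        · intro y hy
          rw [Finset.mem_image] at hy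
          obtain ⟨i, _, rfl⟩ := hy
          exact ha3 i
        · rw [Finset.card_image_of_injective _ hainj, hKc]
          simp
      intro y hy
      rw [← h2, Finset.mem_image] at hy
      obtain ⟨i, _, hi⟩ := hy
      exact ⟨i, hi⟩
    have hstep : ∀ n, n ≤ L → (f n ∈ K k ∨ ∃ i, f n ∈ D ⟨k, i⟩) →
        n < L ∧ (f (n + 1) ∈ K k ∨ ∃ i, f (n + 1) ∈ D ⟨k, i⟩) := by
      rintro n hn (h | ⟨i, hi⟩)
      · obtain ⟨i, hi⟩ := hsurjK _ h
        have h2 := hinj _ _ (ha1 i).le hn hi
        subst h2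
        exact ⟨ha1 i, Or.inr ⟨i, ha2 i⟩⟩
      · have h2 : n < L := by
          rcases hn.lt_or_eq with h2 | h2
          · exact h2
          · exact absurd (by rw [← h2]; exact hi) (h1 i)
        refine ⟨h2, ?_⟩
        rcases hN ⟨k, i⟩ _ hi _ (hadj n h2) with h3 | h3
        · exact Or.inr ⟨i, h3⟩
        · exact Or.inl h3
    have hall : ∀ t n, n + t = L → (f n ∈ K k ∨ ∃ i, f n ∈ D ⟨k, i⟩) → False := by
      intro t
      induction t with
      | zero =>
        intro n hn h
        have := (hstep n (by omega) h).1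
        omega
      | succ t ih =>
        intro n hn h
        have := hstep n (by omega) h
        exact ih (n + 1) (by omega) this.2
    have i0 : Fin (s k) := ⟨0, hs k⟩
    exact hall (L - (a i0 + 1)) (a i0 + 1) (by have := ha1 i0; omega) (Or.inr ⟨i0, ha2 i0⟩)
  choose q hq1 hq2 using key
  have hdis : ∀ k l, k ≠ l → ∀ x, x ∈ D (q k) → x ∉ D (q l) := by
    intro k l hkl x hx hx'
    have : q k ≠ q l := fun h => hkl (by rw [← hq1 k, ← hq1 l, h])
    exact (Set.disjoint_left.1 (hDD _ _ this)) hx hx'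
  have d01 := hdis 0 1 (by decide)
  have d02 := hdis 0 2 (by decide)
  have d12 := hdis 1 2 (by decide)
  rcases hq2 0 with h | h <;> rcases hq2 1 with h' | h' <;> rcases hq2 2 with h'' | h''
  · exact d01 _ h h'
  · exact d01 _ h h'
  · exact d02 _ h h''
  · exact d12 _ h' h''
  · exact d12 _ h' h''
  · exact d02 _ h h''
  · exact d01 _ h h'
  · exact d01 _ h h'

/-- the vertices of the gadget graph: a vertex is `(⟨k, i⟩, t)`, in the gadget `k`, in the clique
if `t = true`, outside if `t = false` -/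
abbrev GV (s : Fin 3 → ℕ) : Type := ((k : Fin 3) × Fin (s k)) × Bool

/-- The gadget graph: the vertices `(⟨k, i⟩, true)` form a clique, and `(⟨k, i⟩, false)` is
adjacent to all `(⟨k, j⟩, true)`. -/
def gadgetGraph (s : Fin 3 → ℕ) : SimpleGraph (GV s) where
  Adj p q := p ≠ q ∧ ((p.2 = true ∧ q.2 = true) ∨ (p.1.1 = q.1.1 ∧ p.2 ≠ q.2))
  symm := ⟨by
    rintro p q ⟨h, h' | h'⟩
    · exact ⟨h.symm, Or.inl ⟨h'.2, h'.1⟩⟩
    · exact ⟨h.symm, Or.inr ⟨h'.1.symm, h'.2.symm⟩⟩⟩
  loopless := ⟨fun p h => h.1 rfl⟩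

theorem gadget_adj {s : Fin 3 → ℕ} {p q : GV s} : (gadgetGraph s).Adj p q ↔
    p ≠ q ∧ ((p.2 = true ∧ q.2 = true) ∨ (p.1.1 = q.1.1 ∧ p.2 ≠ q.2)) := Iff.rfl

theorem gadget_tight (s : Fin 3 → ℕ) : TightTriple (gadgetGraph s) s := by
  classical
  refine ⟨fun k => univ.image fun i : Fin (s k) => ((⟨k, i⟩, true) : GV s),
    fun p => {(p, false)}, fun k => ?_, fun k l hkl => ?_, fun p => ⟨_, rfl⟩, fun p q hpq => ?_,
    fun p k x hx => ?_, fun p x hx y hy => ?_⟩
  · rw [Finset.card_image_of_injective]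
    · simp
    · intro i j hij
      simpa using hij
  · rw [Finset.disjoint_left]
    intro x hx hx'
    rw [Finset.mem_image] at hx hx'
    obtain ⟨i, _, rfl⟩ := hx
    obtain ⟨j, _, hj⟩ := hx'
    apply hkl
    have := congrArg (fun z : GV s => z.1.1) hj
    exact this.symm
  · rw [Set.disjoint_singleton]
    intro h
    exact hpq (congrArg Prod.fst h)
  · rw [Set.mem_singleton_iff] at hx
    subst hx
    simp
  · rw [Set.mem_singleton_iff] at hx
    subst hx
    right
    obtain ⟨h1, h2 | h2⟩ := hy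
    · simp at h2
    · obtain ⟨⟨k, i⟩, t⟩ := y
      obtain ⟨h3, h4⟩ := h2
      simp only at h3 h4
      subst h3
      have : t = true := by
        cases t
        · simp at h4
        · rfl
      subst this
      simp

theorem gadget_connected {s : Fin 3 → ℕ} (hs : ∀ k, 1 ≤ s k) : (gadgetGraph s).Connected := by
  have hne : Nonempty (GV s) := ⟨(⟨0, ⟨0, hs 0⟩⟩, true)⟩
  have h1 : ∀ p q : GV s, p.2 = true → q.2 = true → (gadgetGraph s).Reachable p q := by
    intro p q hp hq
    by_cases h : p = q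
    · subst h; exact SimpleGraph.Reachable.refl _
    · exact SimpleGraph.Adj.reachable ⟨h, Or.inl ⟨hp, hq⟩⟩
  have h2 : ∀ p : GV s, ∃ q : GV s, q.2 = true ∧ (gadgetGraph s).Reachable p q := by
    intro p
    by_cases hp : p.2 = true
    · exact ⟨p, hp, SimpleGraph.Reachable.refl _⟩
    · refine ⟨(p.1, true), rfl, SimpleGraph.Adj.reachable ⟨?_, Or.inr ⟨rfl, hp⟩⟩⟩
      intro h
      exact hp (congrArg Prod.snd h)
  refine ⟨fun p q => ?_⟩
  obtain ⟨p', hp, hpp⟩ := h2 p
  obtain ⟨q', hq, hqq⟩ := h2 q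
  exact hpp.trans ((h1 p' q' hp hq).trans hqq.symm)

/-- the gadget graph guarantees connected EF1 allocations for at least `s 0 + s 1 + s 2` agents -/
theorem gadget_guarantees (s : Fin 3 → ℕ) {n : ℕ} (hn : s 0 + s 1 + s 2 ≤ n) :
    GuaranteesMonotone (gadgetGraph s) n := by
  intro v _ mono
  refine Large.main (K := univ.filter fun p : GV s => p.2 = true) (m := fun p => (p.1, true))
    ?_ ?_ ?_ ?_ v mono
  · intro a ha b hb hab
    exact ⟨hab, Or.inl ⟨(Finset.mem_filter.1 ha).2, (Finset.mem_filter.1 hb).2⟩⟩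
  · intro x hx
    have hx' : x.2 ≠ true := fun h => hx (Finset.mem_filter.2 ⟨Finset.mem_univ _, h⟩)
    refine ⟨Finset.mem_filter.2 ⟨Finset.mem_univ _, rfl⟩, ?_, Or.inr ⟨rfl, hx'⟩⟩
    intro h
    exact hx' (congrArg Prod.snd h)
  · intro x y hx hy hxy
    have hx' : x.2 ≠ true := fun h => hx (Finset.mem_filter.2 ⟨Finset.mem_univ _, h⟩)
    have hy' : y.2 ≠ true := fun h => hy (Finset.mem_filter.2 ⟨Finset.mem_univ _, h⟩)
    have h1 : x.1 = y.1 := (Prod.ext_iff.1 hxy).1
    exact Prod.ext h1 ((Bool.eq_false_of_not_eq_true hx').trans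
      (Bool.eq_false_of_not_eq_true hy').symm)
  · have h1 : (univ.filter fun p : GV s => p.2 = true).card =
        (univ : Finset ((k : Fin 3) × Fin (s k))).card := by
      refine (Finset.card_bij (fun p _ => (p, true)) ?_ ?_ ?_).symm
      · intro p _
        simp
      · intro p _ q _ h
        exact congrArg Prod.fst h
      · rintro ⟨p, t⟩ h
        rw [Finset.mem_filter] at h
        exact ⟨p, Finset.mem_univ _, Prod.ext rfl h.2.symm⟩
    rw [h1, Finset.card_univ, Fintype.card_sigma, Fin.sum_univ_three]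
    simpa using hn

/-- if one gadget has size one, the bound is best possible -/
theorem gadget_fails {s : Fin 3 → ℕ} (hs : ∀ k, 1 ≤ s k) {k : Fin 3} (hk : s k = 1) :
    ¬ GuaranteesMonotone (gadgetGraph s) (s 0 + s 1 + s 2 - 1) := by
  have key : ∀ (G : SimpleGraph (GV s)) (b c n : ℕ), 1 ≤ b → 1 ≤ c → n = b + c →
      TightTriple G ![1, b, c] → ¬ GuaranteesMonotone G n := by
    intro G b c n hb hc hn hT hG
    subst hn
    obtain ⟨u₁, u₂, h1, h2, _, hA⟩ := main hb hc hT
    have hmono : ∀ u : Finset (GV s) → ℝ, IsAdditive u → ∀ S T, S ⊆ T → u S ≤ u T := by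
      intro u hu S T hST
      rw [hu.2 S, hu.2 T]
      exact Finset.sum_le_sum_of_subset_of_nonneg hST fun x _ _ => hu.1 _
    obtain ⟨A, hA1, hA2, hA3⟩ := hG (Fin.append (fun _ : Fin b => u₁) (fun _ : Fin c => u₂))
      (fun i S => by
        refine Fin.addCases (fun i => ?_) (fun i => ?_) i
        · rw [Fin.append_left]; exact h1.1 _
        · rw [Fin.append_right]; exact h2.1 _)
      (fun i S T hST => by
        refine Fin.addCases (fun i => ?_) (fun i => ?_) i
        · rw [Fin.append_left]; exact hmono _ h1 _ _ hST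
        · rw [Fin.append_right]; exact hmono _ h2 _ _ hST)
    refine hA A hA1 hA2 fun i j => ?_
    rcases hA3 i j with h | ⟨o, ho, h⟩
    · exact Or.inl h
    · exact Or.inr ⟨o, ho.1, h⟩
  have h0 := hs 0
  have h1 := hs 1
  have h2 := hs 2
  have hT := gadget_tight s
  fin_cases k
  · exact key _ (s 1) (s 2) _ h1 h2 (by simp only [Fin.zero_eta] at hk; omega)
      (hT.perm (Equiv.refl _) fun k => by fin_cases k <;> first | exact hk.symm | rfl)
  · exact key _ (s 0) (s 2) _ h0 h2 (by simp only [Fin.mk_one] at hk; omega)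
      (hT.perm (Equiv.swap 0 1) fun k => by
        fin_cases k
        · exact hk.symm
        · rfl
        · rfl)
  · exact key _ (s 1) (s 0) _ h1 h0 (by simp only [Fin.reduceFinMk] at hk; omega)
      (hT.perm (Equiv.swap 0 2) fun k => by
        fin_cases k
        · exact hk.symm
        · rfl
        · rfl)

end Pool.Agent.H560TT
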