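import Mathlib

/-!
The arithmetic behind the obstruction: there is no distribution of the vertices of three tight
gadgets of sizes `1, b, c` among `b + c` agents.
-/

set_option autoImplicit false
set_option linter.unusedTactic false
set_option linter.unreachableTactic false

namespace Pool.Agent.H560TT

open Finset

/-- How many vertices of each of the six classes a share contains: `a`, `A` for the first gadget
(outer vertices and separating vertices), `β`, `B` for the second and `γ`, `C` for the third one. -/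
structure Cnt where
  a : ℕ
  A : ℕ
  β : ℕ
  B : ℕ
  γ : ℕ
  C : ℕ

namespace Cnt

/-- what connectedness gives -/
structure Conn (x : Cnt) : Prop where
  ca : x.a = 0 ∨ 1 ≤ x.A ∨ (x.a = 1 ∧ x.A = 0 ∧ x.β = 0 ∧ x.B = 0 ∧ x.γ = 0 ∧ x.C = 0)
  cb : x.β = 0 ∨ 1 ≤ x.B ∨ (x.a = 0 ∧ x.A = 0 ∧ x.β = 1 ∧ x.B = 0 ∧ x.γ = 0 ∧ x.C = 0)
  cc : x.γ = 0 ∨ 1 ≤ x.C ∨ (x.a = 0 ∧ x.A = 0 ∧ x.β = 0 ∧ x.B = 0 ∧ x.γ = 1 ∧ x.C = 0)

/-- value for the agents of the second kind -/
def val0 (x : Cnt) : ℕ := 2 * x.a + 4 * x.A + 4 * x.β + 4 * x.B + 7 * x.γ + 2 * x.C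

/-- value for the agents of the first kind -/
def val1 (x : Cnt) : ℕ := 2 * x.a + 4 * x.A + 7 * x.β + 2 * x.B + 4 * x.γ + 4 * x.C

/-- after removing a vertex the value is at most `X` (consequence) -/
def R0 (X : ℕ) (x : Cnt) : Prop := val0 x ≤ X + 4 ∨ (1 ≤ x.γ ∧ val0 x ≤ X + 7)

def R1 (Y : ℕ) (x : Cnt) : Prop := val1 x ≤ Y + 4 ∨ (1 ≤ x.β ∧ val1 x ≤ Y + 7)

end Cnt

open Cnt

/-- Total of a linear function, with lower bounds. -/
theorem lin {b c : ℕ} (x : Fin b → Cnt) (y : Fin c → Cnt) {sa sA sβ sB sγ sC : ℕ}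
    (ha : ∑ i, (x i).a + ∑ i, (y i).a = sa) (hA : ∑ i, (x i).A + ∑ i, (y i).A = sA)
    (hβ : ∑ i, (x i).β + ∑ i, (y i).β = sβ) (hB : ∑ i, (x i).B + ∑ i, (y i).B = sB)
    (hγ : ∑ i, (x i).γ + ∑ i, (y i).γ = sγ) (hC : ∑ i, (x i).C + ∑ i, (y i).C = sC)
    (p0 p1 p2 p3 p4 p5 m1 m0 : ℤ)
    (h1 : ∀ j, m1 ≤ p0 * (x j).a + p1 * (x j).A + p2 * (x j).β + p3 * (x j).B + p4 * (x j).γ +
      p5 * (x j).C)
    (h0 : ∀ j, m0 ≤ p0 * (y j).a + p1 * (y j).A + p2 * (y j).β + p3 * (y j).B + p4 * (y j).γ +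
      p5 * (y j).C) :
    b * m1 + c * m0 ≤ p0 * sa + p1 * sA + p2 * sβ + p3 * sB + p4 * sγ + p5 * sC := by
  have e1 : (b : ℤ) * m1 ≤ ∑ j, (p0 * (x j).a + p1 * (x j).A + p2 * (x j).β + p3 * (x j).B +
      p4 * (x j).γ + p5 * (x j).C) := by
    calc (b : ℤ) * m1 = ∑ _j : Fin b, m1 := by simp
      _ ≤ _ := Finset.sum_le_sum fun j _ => h1 j
  have e0 : (c : ℤ) * m0 ≤ ∑ j, (p0 * (y j).a + p1 * (y j).A + p2 * (y j).β + p3 * (y j).B +
      p4 * (y j).γ + p5 * (y j).C) := by
    calc (c : ℤ) * m0 = ∑ _j : Fin c, m0 := by simp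
      _ ≤ _ := Finset.sum_le_sum fun j _ => h0 j
  rw [← ha, ← hA, ← hβ, ← hB, ← hγ, ← hC]
  push_cast
  simp only [Finset.sum_add_distrib, ← Finset.mul_sum] at e1 e0
  linarith

/-- the main case -/
theorem core2 {b c : ℕ} (hb : 2 ≤ b) (hc : 2 ≤ c) (x : Fin b → Cnt) (y : Fin c → Cnt)
    (cx : ∀ i, Conn (x i)) (cy : ∀ i, Conn (y i))
    (ha : ∑ i, (x i).a + ∑ i, (y i).a = 1) (hA : ∑ i, (x i).A + ∑ i, (y i).A = 1)
    (hβ : ∑ i, (x i).β + ∑ i, (y i).β = b) (hB : ∑ i, (x i).B + ∑ i, (y i).B = b)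
    (hγ : ∑ i, (x i).γ + ∑ i, (y i).γ = c) (hC : ∑ i, (x i).C + ∑ i, (y i).C = c)
    (e00 : ∀ i j, R0 (val0 (y i)) (y j)) (e01 : ∀ i j, R0 (val0 (y i)) (x j))
    (e10 : ∀ i j, R1 (val1 (x i)) (y j)) (e11 : ∀ i j, R1 (val1 (x i)) (x j)) : False := by
  have L := lin x y ha hA hβ hB hγ hC
  have : Nonempty (Fin b) := ⟨⟨0, by omega⟩⟩
  have : Nonempty (Fin c) := ⟨⟨0, by omega⟩⟩
  obtain ⟨i1, hi1⟩ := Finite.exists_min fun i => val1 (x i)
  obtain ⟨i0, hi0⟩ := Finite.exists_min fun i => val0 (y i)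
  have r00 := e00 i0
  have r01 := e01 i0
  have r10 := e10 i1
  have r11 := e11 i1
  clear e00 e01 e10 e11
  generalize val0 (y i0) = X at *
  generalize val1 (x i1) = Y at *
  have ax : ∀ j, (x j).a ≤ 1 := fun j => by
    have := Finset.single_le_sum (f := fun i => (x i).a) (fun i _ => Nat.zero_le _)
      (Finset.mem_univ j)
    omega
  have ay : ∀ j, (y j).a ≤ 1 := fun j => by
    have := Finset.single_le_sum (f := fun i => (y i).a) (fun i _ => Nat.zero_le _)
      (Finset.mem_univ j)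
    omega
  have Ax : ∀ j, (x j).A ≤ 1 := fun j => by
    have := Finset.single_le_sum (f := fun i => (x i).A) (fun i _ => Nat.zero_le _)
      (Finset.mem_univ j)
    omega
  have Ay : ∀ j, (y j).A ≤ 1 := fun j => by
    have := Finset.single_le_sum (f := fun i => (y i).A) (fun i _ => Nat.zero_le _)
      (Finset.mem_univ j)
    omega
  -- all facts about one share
  have fx : ∀ j, Conn (x j) ∧ (x j).a ≤ 1 ∧ (x j).A ≤ 1 ∧ Y ≤ val1 (x j) ∧ R0 X (x j) ∧
      R1 Y (x j) := fun j => ⟨cx j, ax j, Ax j, hi1 j, r01 j, r11 j⟩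
  have fy : ∀ j, Conn (y j) ∧ (y j).a ≤ 1 ∧ (y j).A ≤ 1 ∧ X ≤ val0 (y j) ∧ R0 X (y j) ∧
      R1 Y (y j) := fun j => ⟨cy j, ay j, Ay j, hi0 j, r00 j, r10 j⟩
  clear hi1 hi0 r00 r01 r10 r11 cx cy ax ay Ax Ay
  simp only [R0, R1, val0, val1] at fx fy
  by_cases hX7 : X ≤ 7
  · have := L (-1) 0 (-1) 0 (-1) 0 (-1) (-1)
      (fun j => by
        obtain ⟨⟨_, _, _⟩, _, _, _, _, _⟩ := fx j
        rcases (show (x j).a = 0 ∨ (x j).a = 1 by omega) with _ | _ <;> try omega
        all_goals rcases (show (x j).A = 0 ∨ (x j).A = 1 by omega) with _ | _ <;> try omega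
        all_goals rcases (show (x j).C = 0 ∨ (x j).C = 1 ∨ (x j).C = 2 ∨ 3 ≤ (x j).C by omega)
          with _ | _ | _ | _ <;> try omega
        all_goals rcases (show (x j).B = 0 ∨ (x j).B = 1 ∨ (x j).B = 2 ∨ 3 ≤ (x j).B by omega)
          with _ | _ | _ | _ <;> try omega
        all_goals rcases (show (x j).β = 0 ∨ (x j).β = 1 ∨ (x j).β = 2 ∨ 3 ≤ (x j).β by omega)
          with _ | _ | _ | _ <;> try omega
        all_goals rcases (show (x j).γ = 0 ∨ (x j).γ = 1 ∨ (x j).γ = 2 ∨ 3 ≤ (x j).γ by omega)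
          with _ | _ | _ | _ <;> try omega)
      (fun j => by
        obtain ⟨⟨_, _, _⟩, _, _, _, _, _⟩ := fy j
        rcases (show (y j).a = 0 ∨ (y j).a = 1 by omega) with _ | _ <;> try omega
        all_goals rcases (show (y j).A = 0 ∨ (y j).A = 1 by omega) with _ | _ <;> try omega
        all_goals rcases (show (y j).C = 0 ∨ (y j).C = 1 ∨ (y j).C = 2 ∨ 3 ≤ (y j).C by omega)
          with _ | _ | _ | _ <;> try omega
        all_goals rcases (show (y j).B = 0 ∨ (y j).B = 1 ∨ (y j).B = 2 ∨ 3 ≤ (y j).B by omega)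
          with _ | _ | _ | _ <;> try omega
        all_goals rcases (show (y j).β = 0 ∨ (y j).β = 1 ∨ (y j).β = 2 ∨ 3 ≤ (y j).β by omega)
          with _ | _ | _ | _ <;> try omega
        all_goals rcases (show (y j).γ = 0 ∨ (y j).γ = 1 ∨ (y j).γ = 2 ∨ 3 ≤ (y j).γ by omega)
          with _ | _ | _ | _ <;> try omega)
    push_cast at this
    omega
  by_cases hY7 : Y ≤ 7
  · have := L (-1) 0 (-1) 0 (-1) 0 (-1) (-1)
      (fun j => by
        obtain ⟨⟨_, _, _⟩, _, _, _, _, _⟩ := fx j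
        rcases (show (x j).a = 0 ∨ (x j).a = 1 by omega) with _ | _ <;> try omega
        all_goals rcases (show (x j).A = 0 ∨ (x j).A = 1 by omega) with _ | _ <;> try omega
        all_goals rcases (show (x j).C = 0 ∨ (x j).C = 1 ∨ (x j).C = 2 ∨ 3 ≤ (x j).C by omega)
          with _ | _ | _ | _ <;> try omega
        all_goals rcases (show (x j).B = 0 ∨ (x j).B = 1 ∨ (x j).B = 2 ∨ 3 ≤ (x j).B by omega)
          with _ | _ | _ | _ <;> try omega
        all_goals rcases (show (x j).β = 0 ∨ (x j).β = 1 ∨ (x j).β = 2 ∨ 3 ≤ (x j).β by omega)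
          with _ | _ | _ | _ <;> try omega
        all_goals rcases (show (x j).γ = 0 ∨ (x j).γ = 1 ∨ (x j).γ = 2 ∨ 3 ≤ (x j).γ by omega)
          with _ | _ | _ | _ <;> try omega)
      (fun j => by
        obtain ⟨⟨_, _, _⟩, _, _, _, _, _⟩ := fy j
        rcases (show (y j).a = 0 ∨ (y j).a = 1 by omega) with _ | _ <;> try omega
        all_goals rcases (show (y j).A = 0 ∨ (y j).A = 1 by omega) with _ | _ <;> try omega
        all_goals rcases (show (y j).C = 0 ∨ (y j).C = 1 ∨ (y j).C = 2 ∨ 3 ≤ (y j).C by omega)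
          with _ | _ | _ | _ <;> try omega
        all_goals rcases (show (y j).B = 0 ∨ (y j).B = 1 ∨ (y j).B = 2 ∨ 3 ≤ (y j).B by omega)
          with _ | _ | _ | _ <;> try omega
        all_goals rcases (show (y j).β = 0 ∨ (y j).β = 1 ∨ (y j).β = 2 ∨ 3 ≤ (y j).β by omega)
          with _ | _ | _ | _ <;> try omega
        all_goals rcases (show (y j).γ = 0 ∨ (y j).γ = 1 ∨ (y j).γ = 2 ∨ 3 ≤ (y j).γ by omega)
          with _ | _ | _ | _ <;> try omega)
    push_cast at this
    omega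
  by_cases hX8 : X = 8
  · subst hX8
    by_cases hY8 : Y = 8
    · subst hY8
      have := L (-1) 0 (-1) 0 (-1) 0 (-1) (-1)
        (fun j => by
          obtain ⟨⟨_, _, _⟩, _, _, _, _, _⟩ := fx j
          rcases (show (x j).a = 0 ∨ (x j).a = 1 by omega) with _ | _ <;> try omega
          all_goals rcases (show (x j).A = 0 ∨ (x j).A = 1 by omega) with _ | _ <;> try omega
          all_goals rcases (show (x j).C = 0 ∨ (x j).C = 1 ∨ (x j).C = 2 ∨ 3 ≤ (x j).C by omega)
            with _ | _ | _ | _ <;> try omega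
          all_goals rcases (show (x j).B = 0 ∨ (x j).B = 1 ∨ (x j).B = 2 ∨ 3 ≤ (x j).B by omega)
            with _ | _ | _ | _ <;> try omega
          all_goals rcases (show (x j).β = 0 ∨ (x j).β = 1 ∨ (x j).β = 2 ∨ 3 ≤ (x j).β by omega)
            with _ | _ | _ | _ <;> try omega
          all_goals rcases (show (x j).γ = 0 ∨ (x j).γ = 1 ∨ (x j).γ = 2 ∨ 3 ≤ (x j).γ by omega)
            with _ | _ | _ | _ <;> try omega)
        (fun j => by
          obtain ⟨⟨_, _, _⟩, _, _, _, _, _⟩ := fy j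
          rcases (show (y j).a = 0 ∨ (y j).a = 1 by omega) with _ | _ <;> try omega
          all_goals rcases (show (y j).A = 0 ∨ (y j).A = 1 by omega) with _ | _ <;> try omega
          all_goals rcases (show (y j).C = 0 ∨ (y j).C = 1 ∨ (y j).C = 2 ∨ 3 ≤ (y j).C by omega)
            with _ | _ | _ | _ <;> try omega
          all_goals rcases (show (y j).B = 0 ∨ (y j).B = 1 ∨ (y j).B = 2 ∨ 3 ≤ (y j).B by omega)
            with _ | _ | _ | _ <;> try omega
          all_goals rcases (show (y j).β = 0 ∨ (y j).β = 1 ∨ (y j).β = 2 ∨ 3 ≤ (y j).β by omega)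
            with _ | _ | _ | _ <;> try omega
          all_goals rcases (show (y j).γ = 0 ∨ (y j).γ = 1 ∨ (y j).γ = 2 ∨ 3 ≤ (y j).γ by omega)
            with _ | _ | _ | _ <;> try omega)
      push_cast at this
      omega
    by_cases hY9 : Y = 9
    · subst hY9
      have := L (-2) 1 0 1 (-2) 2 1 0
        (fun j => by
          obtain ⟨⟨_, _, _⟩, _, _, _, _, _⟩ := fx j
          rcases (show (x j).a = 0 ∨ (x j).a = 1 by omega) with _ | _ <;> try omega
          all_goals rcases (show (x j).A = 0 ∨ (x j).A = 1 by omega) with _ | _ <;> try omega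
          all_goals rcases (show (x j).C = 0 ∨ (x j).C = 1 ∨ (x j).C = 2 ∨ 3 ≤ (x j).C by omega)
            with _ | _ | _ | _ <;> try omega
          all_goals rcases (show (x j).B = 0 ∨ (x j).B = 1 ∨ (x j).B = 2 ∨ 3 ≤ (x j).B by omega)
            with _ | _ | _ | _ <;> try omega
          all_goals rcases (show (x j).β = 0 ∨ (x j).β = 1 ∨ (x j).β = 2 ∨ 3 ≤ (x j).β by omega)
            with _ | _ | _ | _ <;> try omega
          all_goals rcases (show (x j).γ = 0 ∨ (x j).γ = 1 ∨ (x j).γ = 2 ∨ 3 ≤ (x j).γ by omega)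
            with _ | _ | _ | _ <;> try omega)
        (fun j => by
          obtain ⟨⟨_, _, _⟩, _, _, _, _, _⟩ := fy j
          rcases (show (y j).a = 0 ∨ (y j).a = 1 by omega) with _ | _ <;> try omega
          all_goals rcases (show (y j).A = 0 ∨ (y j).A = 1 by omega) with _ | _ <;> try omega
          all_goals rcases (show (y j).C = 0 ∨ (y j).C = 1 ∨ (y j).C = 2 ∨ 3 ≤ (y j).C by omega)
            with _ | _ | _ | _ <;> try omega
          all_goals rcases (show (y j).B = 0 ∨ (y j).B = 1 ∨ (y j).B = 2 ∨ 3 ≤ (y j).B by omega)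
            with _ | _ | _ | _ <;> try omega
          all_goals rcases (show (y j).β = 0 ∨ (y j).β = 1 ∨ (y j).β = 2 ∨ 3 ≤ (y j).β by omega)
            with _ | _ | _ | _ <;> try omega
          all_goals rcases (show (y j).γ = 0 ∨ (y j).γ = 1 ∨ (y j).γ = 2 ∨ 3 ≤ (y j).γ by omega)
            with _ | _ | _ | _ <;> try omega)
      push_cast at this
      omega
    · have := L 0 1 1 1 0 2 3 2
        (fun j => by
          obtain ⟨⟨_, _, _⟩, _, _, _, _, _⟩ := fx j
          rcases (show (x j).a = 0 ∨ (x j).a = 1 by omega) with _ | _ <;> try omega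
          all_goals rcases (show (x j).A = 0 ∨ (x j).A = 1 by omega) with _ | _ <;> try omega
          all_goals rcases (show (x j).C = 0 ∨ (x j).C = 1 ∨ (x j).C = 2 ∨ 3 ≤ (x j).C by omega)
            with _ | _ | _ | _ <;> try omega
          all_goals rcases (show (x j).B = 0 ∨ (x j).B = 1 ∨ (x j).B = 2 ∨ 3 ≤ (x j).B by omega)
            with _ | _ | _ | _ <;> try omega
          all_goals rcases (show (x j).β = 0 ∨ (x j).β = 1 ∨ (x j).β = 2 ∨ 3 ≤ (x j).β by omega)
            with _ | _ | _ | _ <;> try omega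
          all_goals rcases (show (x j).γ = 0 ∨ (x j).γ = 1 ∨ (x j).γ = 2 ∨ 3 ≤ (x j).γ by omega)
            with _ | _ | _ | _ <;> try omega)
        (fun j => by
          obtain ⟨⟨_, _, _⟩, _, _, _, _, _⟩ := fy j
          rcases (show (y j).a = 0 ∨ (y j).a = 1 by omega) with _ | _ <;> try omega
          all_goals rcases (show (y j).A = 0 ∨ (y j).A = 1 by omega) with _ | _ <;> try omega
          all_goals rcases (show (y j).C = 0 ∨ (y j).C = 1 ∨ (y j).C = 2 ∨ 3 ≤ (y j).C by omega)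
            with _ | _ | _ | _ <;> try omega
          all_goals rcases (show (y j).B = 0 ∨ (y j).B = 1 ∨ (y j).B = 2 ∨ 3 ≤ (y j).B by omega)
            with _ | _ | _ | _ <;> try omega
          all_goals rcases (show (y j).β = 0 ∨ (y j).β = 1 ∨ (y j).β = 2 ∨ 3 ≤ (y j).β by omega)
            with _ | _ | _ | _ <;> try omega
          all_goals rcases (show (y j).γ = 0 ∨ (y j).γ = 1 ∨ (y j).γ = 2 ∨ 3 ≤ (y j).γ by omega)
            with _ | _ | _ | _ <;> try omega)
      push_cast at this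
      omega
  by_cases hY8 : Y = 8
  · subst hY8
    by_cases hX9 : X = 9
    · subst hX9
      have := L (-2) 1 (-2) 2 0 1 0 1
        (fun j => by
          obtain ⟨⟨_, _, _⟩, _, _, _, _, _⟩ := fx j
          rcases (show (x j).a = 0 ∨ (x j).a = 1 by omega) with _ | _ <;> try omega
          all_goals rcases (show (x j).A = 0 ∨ (x j).A = 1 by omega) with _ | _ <;> try omega
          all_goals rcases (show (x j).C = 0 ∨ (x j).C = 1 ∨ (x j).C = 2 ∨ 3 ≤ (x j).C by omega)
            with _ | _ | _ | _ <;> try omega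
          all_goals rcases (show (x j).B = 0 ∨ (x j).B = 1 ∨ (x j).B = 2 ∨ 3 ≤ (x j).B by omega)
            with _ | _ | _ | _ <;> try omega
          all_goals rcases (show (x j).β = 0 ∨ (x j).β = 1 ∨ (x j).β = 2 ∨ 3 ≤ (x j).β by omega)
            with _ | _ | _ | _ <;> try omega
          all_goals rcases (show (x j).γ = 0 ∨ (x j).γ = 1 ∨ (x j).γ = 2 ∨ 3 ≤ (x j).γ by omega)
            with _ | _ | _ | _ <;> try omega)
        (fun j => by
          obtain ⟨⟨_, _, _⟩, _, _, _, _, _⟩ := fy j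
          rcases (show (y j).a = 0 ∨ (y j).a = 1 by omega) with _ | _ <;> try omega
          all_goals rcases (show (y j).A = 0 ∨ (y j).A = 1 by omega) with _ | _ <;> try omega
          all_goals rcases (show (y j).C = 0 ∨ (y j).C = 1 ∨ (y j).C = 2 ∨ 3 ≤ (y j).C by omega)
            with _ | _ | _ | _ <;> try omega
          all_goals rcases (show (y j).B = 0 ∨ (y j).B = 1 ∨ (y j).B = 2 ∨ 3 ≤ (y j).B by omega)
            with _ | _ | _ | _ <;> try omega
          all_goals rcases (show (y j).β = 0 ∨ (y j).β = 1 ∨ (y j).β = 2 ∨ 3 ≤ (y j).β by omega)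
            with _ | _ | _ | _ <;> try omega
          all_goals rcases (show (y j).γ = 0 ∨ (y j).γ = 1 ∨ (y j).γ = 2 ∨ 3 ≤ (y j).γ by omega)
            with _ | _ | _ | _ <;> try omega)
      push_cast at this
      omega
    · have := L 0 1 0 2 1 1 2 3
        (fun j => by
          obtain ⟨⟨_, _, _⟩, _, _, _, _, _⟩ := fx j
          rcases (show (x j).a = 0 ∨ (x j).a = 1 by omega) with _ | _ <;> try omega
          all_goals rcases (show (x j).A = 0 ∨ (x j).A = 1 by omega) with _ | _ <;> try omega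
          all_goals rcases (show (x j).C = 0 ∨ (x j).C = 1 ∨ (x j).C = 2 ∨ 3 ≤ (x j).C by omega)
            with _ | _ | _ | _ <;> try omega
          all_goals rcases (show (x j).B = 0 ∨ (x j).B = 1 ∨ (x j).B = 2 ∨ 3 ≤ (x j).B by omega)
            with _ | _ | _ | _ <;> try omega
          all_goals rcases (show (x j).β = 0 ∨ (x j).β = 1 ∨ (x j).β = 2 ∨ 3 ≤ (x j).β by omega)
            with _ | _ | _ | _ <;> try omega
          all_goals rcases (show (x j).γ = 0 ∨ (x j).γ = 1 ∨ (x j).γ = 2 ∨ 3 ≤ (x j).γ by omega)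
            with _ | _ | _ | _ <;> try omega)
        (fun j => by
          obtain ⟨⟨_, _, _⟩, _, _, _, _, _⟩ := fy j
          rcases (show (y j).a = 0 ∨ (y j).a = 1 by omega) with _ | _ <;> try omega
          all_goals rcases (show (y j).A = 0 ∨ (y j).A = 1 by omega) with _ | _ <;> try omega
          all_goals rcases (show (y j).C = 0 ∨ (y j).C = 1 ∨ (y j).C = 2 ∨ 3 ≤ (y j).C by omega)
            with _ | _ | _ | _ <;> try omega
          all_goals rcases (show (y j).B = 0 ∨ (y j).B = 1 ∨ (y j).B = 2 ∨ 3 ≤ (y j).B by omega)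
            with _ | _ | _ | _ <;> try omega
          all_goals rcases (show (y j).β = 0 ∨ (y j).β = 1 ∨ (y j).β = 2 ∨ 3 ≤ (y j).β by omega)
            with _ | _ | _ | _ <;> try omega
          all_goals rcases (show (y j).γ = 0 ∨ (y j).γ = 1 ∨ (y j).γ = 2 ∨ 3 ≤ (y j).γ by omega)
            with _ | _ | _ | _ <;> try omega)
      push_cast at this
      omega
  by_cases hY10 : 10 ≤ Y
  · have := L 1 3 3 3 2 5 9 7
      (fun j => by
        obtain ⟨⟨_, _, _⟩, _, _, _, _, _⟩ := fx j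
        rcases (show (x j).a = 0 ∨ (x j).a = 1 by omega) with _ | _ <;> try omega
        all_goals rcases (show (x j).A = 0 ∨ (x j).A = 1 by omega) with _ | _ <;> try omega
        all_goals rcases (show (x j).C = 0 ∨ (x j).C = 1 ∨ (x j).C = 2 ∨ 3 ≤ (x j).C by omega)
          with _ | _ | _ | _ <;> try omega
        all_goals rcases (show (x j).B = 0 ∨ (x j).B = 1 ∨ (x j).B = 2 ∨ 3 ≤ (x j).B by omega)
          with _ | _ | _ | _ <;> try omega
        all_goals rcases (show (x j).β = 0 ∨ (x j).β = 1 ∨ (x j).β = 2 ∨ 3 ≤ (x j).β by omega)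
          with _ | _ | _ | _ <;> try omega
        all_goals rcases (show (x j).γ = 0 ∨ (x j).γ = 1 ∨ (x j).γ = 2 ∨ 3 ≤ (x j).γ by omega)
          with _ | _ | _ | _ <;> try omega)
      (fun j => by
        obtain ⟨⟨_, _, _⟩, _, _, _, _, _⟩ := fy j
        rcases (show (y j).a = 0 ∨ (y j).a = 1 by omega) with _ | _ <;> try omega
        all_goals rcases (show (y j).A = 0 ∨ (y j).A = 1 by omega) with _ | _ <;> try omega
        all_goals rcases (show (y j).C = 0 ∨ (y j).C = 1 ∨ (y j).C = 2 ∨ 3 ≤ (y j).C by omega)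
          with _ | _ | _ | _ <;> try omega
        all_goals rcases (show (y j).B = 0 ∨ (y j).B = 1 ∨ (y j).B = 2 ∨ 3 ≤ (y j).B by omega)
          with _ | _ | _ | _ <;> try omega
        all_goals rcases (show (y j).β = 0 ∨ (y j).β = 1 ∨ (y j).β = 2 ∨ 3 ≤ (y j).β by omega)
          with _ | _ | _ | _ <;> try omega
        all_goals rcases (show (y j).γ = 0 ∨ (y j).γ = 1 ∨ (y j).γ = 2 ∨ 3 ≤ (y j).γ by omega)
          with _ | _ | _ | _ <;> try omega)
    push_cast at this
    omega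
  by_cases hX10 : 10 ≤ X
  · have := L 1 3 2 5 3 3 7 9
      (fun j => by
        obtain ⟨⟨_, _, _⟩, _, _, _, _, _⟩ := fx j
        rcases (show (x j).a = 0 ∨ (x j).a = 1 by omega) with _ | _ <;> try omega
        all_goals rcases (show (x j).A = 0 ∨ (x j).A = 1 by omega) with _ | _ <;> try omega
        all_goals rcases (show (x j).C = 0 ∨ (x j).C = 1 ∨ (x j).C = 2 ∨ 3 ≤ (x j).C by omega)
          with _ | _ | _ | _ <;> try omega
        all_goals rcases (show (x j).B = 0 ∨ (x j).B = 1 ∨ (x j).B = 2 ∨ 3 ≤ (x j).B by omega)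
          with _ | _ | _ | _ <;> try omega
        all_goals rcases (show (x j).β = 0 ∨ (x j).β = 1 ∨ (x j).β = 2 ∨ 3 ≤ (x j).β by omega)
          with _ | _ | _ | _ <;> try omega
        all_goals rcases (show (x j).γ = 0 ∨ (x j).γ = 1 ∨ (x j).γ = 2 ∨ 3 ≤ (x j).γ by omega)
          with _ | _ | _ | _ <;> try omega)
      (fun j => by
        obtain ⟨⟨_, _, _⟩, _, _, _, _, _⟩ := fy j
        rcases (show (y j).a = 0 ∨ (y j).a = 1 by omega) with _ | _ <;> try omega
        all_goals rcases (show (y j).A = 0 ∨ (y j).A = 1 by omega) with _ | _ <;> try omega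
        all_goals rcases (show (y j).C = 0 ∨ (y j).C = 1 ∨ (y j).C = 2 ∨ 3 ≤ (y j).C by omega)
          with _ | _ | _ | _ <;> try omega
        all_goals rcases (show (y j).B = 0 ∨ (y j).B = 1 ∨ (y j).B = 2 ∨ 3 ≤ (y j).B by omega)
          with _ | _ | _ | _ <;> try omega
        all_goals rcases (show (y j).β = 0 ∨ (y j).β = 1 ∨ (y j).β = 2 ∨ 3 ≤ (y j).β by omega)
          with _ | _ | _ | _ <;> try omega
        all_goals rcases (show (y j).γ = 0 ∨ (y j).γ = 1 ∨ (y j).γ = 2 ∨ 3 ≤ (y j).γ by omega)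
          with _ | _ | _ | _ <;> try omega)
    push_cast at this
    omega
  have hX9 : X = 9 := by omega
  have hY9 : Y = 9 := by omega
  subst hX9 hY9
  by_cases hs : ∑ i, (x i).a = 0
  · have h0 : ∀ j, (x j).a = 0 := fun j => by
      have := Finset.single_le_sum (f := fun i => (x i).a) (fun i _ => Nat.zero_le _)
        (Finset.mem_univ j)
      omega
    have := L (-4) 3 0 3 1 1 3 2
      (fun j => by
        obtain ⟨⟨_, _, _⟩, _, _, _, _, _⟩ := fx j
        have := h0 j
        rcases (show (x j).a = 0 ∨ (x j).a = 1 by omega) with _ | _ <;> try omega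
        all_goals rcases (show (x j).A = 0 ∨ (x j).A = 1 by omega) with _ | _ <;> try omega
        all_goals rcases (show (x j).C = 0 ∨ (x j).C = 1 ∨ (x j).C = 2 ∨ 3 ≤ (x j).C by omega)
          with _ | _ | _ | _ <;> try omega
        all_goals rcases (show (x j).B = 0 ∨ (x j).B = 1 ∨ (x j).B = 2 ∨ 3 ≤ (x j).B by omega)
          with _ | _ | _ | _ <;> try omega
        all_goals rcases (show (x j).β = 0 ∨ (x j).β = 1 ∨ (x j).β = 2 ∨ 3 ≤ (x j).β by omega)
          with _ | _ | _ | _ <;> try omega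
        all_goals rcases (show (x j).γ = 0 ∨ (x j).γ = 1 ∨ (x j).γ = 2 ∨ 3 ≤ (x j).γ by omega)
          with _ | _ | _ | _ <;> try omega)
      (fun j => by
        obtain ⟨⟨_, _, _⟩, _, _, _, _, _⟩ := fy j
        rcases (show (y j).a = 0 ∨ (y j).a = 1 by omega) with _ | _ <;> try omega
        all_goals rcases (show (y j).A = 0 ∨ (y j).A = 1 by omega) with _ | _ <;> try omega
        all_goals rcases (show (y j).C = 0 ∨ (y j).C = 1 ∨ (y j).C = 2 ∨ 3 ≤ (y j).C by omega)
          with _ | _ | _ | _ <;> try omega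
        all_goals rcases (show (y j).B = 0 ∨ (y j).B = 1 ∨ (y j).B = 2 ∨ 3 ≤ (y j).B by omega)
          with _ | _ | _ | _ <;> try omega
        all_goals rcases (show (y j).β = 0 ∨ (y j).β = 1 ∨ (y j).β = 2 ∨ 3 ≤ (y j).β by omega)
          with _ | _ | _ | _ <;> try omega
        all_goals rcases (show (y j).γ = 0 ∨ (y j).γ = 1 ∨ (y j).γ = 2 ∨ 3 ≤ (y j).γ by omega)
          with _ | _ | _ | _ <;> try omega)
    push_cast at this
    omega
  · have h0 : ∀ j, (y j).a = 0 := fun j => by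
      have := Finset.single_le_sum (f := fun i => (y i).a) (fun i _ => Nat.zero_le _)
        (Finset.mem_univ j)
      omega
    have := L (-4) 3 1 1 0 3 2 3
      (fun j => by
        obtain ⟨⟨_, _, _⟩, _, _, _, _, _⟩ := fx j
        rcases (show (x j).a = 0 ∨ (x j).a = 1 by omega) with _ | _ <;> try omega
        all_goals rcases (show (x j).A = 0 ∨ (x j).A = 1 by omega) with _ | _ <;> try omega
        all_goals rcases (show (x j).C = 0 ∨ (x j).C = 1 ∨ (x j).C = 2 ∨ 3 ≤ (x j).C by omega)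
          with _ | _ | _ | _ <;> try omega
        all_goals rcases (show (x j).B = 0 ∨ (x j).B = 1 ∨ (x j).B = 2 ∨ 3 ≤ (x j).B by omega)
          with _ | _ | _ | _ <;> try omega
        all_goals rcases (show (x j).β = 0 ∨ (x j).β = 1 ∨ (x j).β = 2 ∨ 3 ≤ (x j).β by omega)
          with _ | _ | _ | _ <;> try omega
        all_goals rcases (show (x j).γ = 0 ∨ (x j).γ = 1 ∨ (x j).γ = 2 ∨ 3 ≤ (x j).γ by omega)
          with _ | _ | _ | _ <;> try omega)
      (fun j => by
        obtain ⟨⟨_, _, _⟩, _, _, _, _, _⟩ := fy j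
        have := h0 j
        rcases (show (y j).a = 0 ∨ (y j).a = 1 by omega) with _ | _ <;> try omega
        all_goals rcases (show (y j).A = 0 ∨ (y j).A = 1 by omega) with _ | _ <;> try omega
        all_goals rcases (show (y j).C = 0 ∨ (y j).C = 1 ∨ (y j).C = 2 ∨ 3 ≤ (y j).C by omega)
          with _ | _ | _ | _ <;> try omega
        all_goals rcases (show (y j).B = 0 ∨ (y j).B = 1 ∨ (y j).B = 2 ∨ 3 ≤ (y j).B by omega)
          with _ | _ | _ | _ <;> try omega
        all_goals rcases (show (y j).β = 0 ∨ (y j).β = 1 ∨ (y j).β = 2 ∨ 3 ≤ (y j).β by omega)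
          with _ | _ | _ | _ <;> try omega
        all_goals rcases (show (y j).γ = 0 ∨ (y j).γ = 1 ∨ (y j).γ = 2 ∨ 3 ≤ (y j).γ by omega)
          with _ | _ | _ | _ <;> try omega)
    push_cast at this
    omega

/-- value used if the second gadget has size `1` -/
def Cnt.val (x : Cnt) : ℕ := 2 * x.a + 2 * x.A + 2 * x.β + 2 * x.B + 3 * x.γ + 2 * x.C

/-- the case of gadgets of sizes `1, 1, m` -/
theorem core1 {b c m : ℕ} (hm : 1 ≤ m) (hbc : b + c = m + 1) (x : Fin b → Cnt) (y : Fin c → Cnt)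
    (cx : ∀ i, Conn (x i)) (cy : ∀ i, Conn (y i))
    (ha : ∑ i, (x i).a + ∑ i, (y i).a = 1) (hA : ∑ i, (x i).A + ∑ i, (y i).A = 1)
    (hβ : ∑ i, (x i).β + ∑ i, (y i).β = 1) (hB : ∑ i, (x i).B + ∑ i, (y i).B = 1)
    (hγ : ∑ i, (x i).γ + ∑ i, (y i).γ = m) (hC : ∑ i, (x i).C + ∑ i, (y i).C = m)
    (X : ℕ) (lx : ∀ i, X ≤ (x i).val) (ly : ∀ i, X ≤ (y i).val)
    (ux : ∀ i, (x i).val ≤ X + 2 ∨ (1 ≤ (x i).γ ∧ (x i).val ≤ X + 3))
    (uy : ∀ i, (y i).val ≤ X + 2 ∨ (1 ≤ (y i).γ ∧ (y i).val ≤ X + 3)) : False := by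
  have L := lin x y ha hA hβ hB hγ hC
  have bx : ∀ j, (x j).a ≤ 1 ∧ (x j).A ≤ 1 ∧ (x j).β ≤ 1 ∧ (x j).B ≤ 1 := fun j => by
    have h1 := Finset.single_le_sum (f := fun i => (x i).a) (fun i _ => Nat.zero_le _)
      (Finset.mem_univ j)
    have h2 := Finset.single_le_sum (f := fun i => (x i).A) (fun i _ => Nat.zero_le _)
      (Finset.mem_univ j)
    have h3 := Finset.single_le_sum (f := fun i => (x i).β) (fun i _ => Nat.zero_le _)
      (Finset.mem_univ j)
    have h4 := Finset.single_le_sum (f := fun i => (x i).B) (fun i _ => Nat.zero_le _)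
      (Finset.mem_univ j)
    omega
  have by' : ∀ j, (y j).a ≤ 1 ∧ (y j).A ≤ 1 ∧ (y j).β ≤ 1 ∧ (y j).B ≤ 1 := fun j => by
    have h1 := Finset.single_le_sum (f := fun i => (y i).a) (fun i _ => Nat.zero_le _)
      (Finset.mem_univ j)
    have h2 := Finset.single_le_sum (f := fun i => (y i).A) (fun i _ => Nat.zero_le _)
      (Finset.mem_univ j)
    have h3 := Finset.single_le_sum (f := fun i => (y i).β) (fun i _ => Nat.zero_le _)
      (Finset.mem_univ j)
    have h4 := Finset.single_le_sum (f := fun i => (y i).B) (fun i _ => Nat.zero_le _)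
      (Finset.mem_univ j)
    omega
  have fx : ∀ j, Conn (x j) ∧ ((x j).a ≤ 1 ∧ (x j).A ≤ 1 ∧ (x j).β ≤ 1 ∧ (x j).B ≤ 1) ∧
      X ≤ (x j).val ∧ ((x j).val ≤ X + 2 ∨ (1 ≤ (x j).γ ∧ (x j).val ≤ X + 3)) :=
    fun j => ⟨cx j, bx j, lx j, ux j⟩
  have fy : ∀ j, Conn (y j) ∧ ((y j).a ≤ 1 ∧ (y j).A ≤ 1 ∧ (y j).β ≤ 1 ∧ (y j).B ≤ 1) ∧
      X ≤ (y j).val ∧ ((y j).val ≤ X + 2 ∨ (1 ≤ (y j).γ ∧ (y j).val ≤ X + 3)) :=
    fun j => ⟨cy j, by' j, ly j, uy j⟩
  clear cx bx lx ux cy by' ly uy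
  simp only [Cnt.val] at fx fy
  by_cases h4 : X ≤ 4
  · have := L (-1) 0 (-1) 0 (-1) 0 (-1) (-1)
      (fun j => by
        obtain ⟨⟨_, _, _⟩, _, _, _⟩ := fx j
        rcases (show (x j).a = 0 ∨ (x j).a = 1 by omega) with _ | _ <;> try omega
        all_goals rcases (show (x j).A = 0 ∨ (x j).A = 1 by omega) with _ | _ <;> try omega
        all_goals rcases (show (x j).C = 0 ∨ (x j).C = 1 ∨ (x j).C = 2 ∨ 3 ≤ (x j).C by omega)
          with _ | _ | _ | _ <;> try omega
        all_goals rcases (show (x j).B = 0 ∨ (x j).B = 1 ∨ (x j).B = 2 ∨ 3 ≤ (x j).B by omega)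
          with _ | _ | _ | _ <;> try omega
        all_goals rcases (show (x j).β = 0 ∨ (x j).β = 1 ∨ (x j).β = 2 ∨ 3 ≤ (x j).β by omega)
          with _ | _ | _ | _ <;> try omega
        all_goals rcases (show (x j).γ = 0 ∨ (x j).γ = 1 ∨ (x j).γ = 2 ∨ 3 ≤ (x j).γ by omega)
          with _ | _ | _ | _ <;> try omega)
      (fun j => by
        obtain ⟨⟨_, _, _⟩, _, _, _⟩ := fy j
        rcases (show (y j).a = 0 ∨ (y j).a = 1 by omega) with _ | _ <;> try omega
        all_goals rcases (show (y j).A = 0 ∨ (y j).A = 1 by omega) with _ | _ <;> try omega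
        all_goals rcases (show (y j).C = 0 ∨ (y j).C = 1 ∨ (y j).C = 2 ∨ 3 ≤ (y j).C by omega)
          with _ | _ | _ | _ <;> try omega
        all_goals rcases (show (y j).B = 0 ∨ (y j).B = 1 ∨ (y j).B = 2 ∨ 3 ≤ (y j).B by omega)
          with _ | _ | _ | _ <;> try omega
        all_goals rcases (show (y j).β = 0 ∨ (y j).β = 1 ∨ (y j).β = 2 ∨ 3 ≤ (y j).β by omega)
          with _ | _ | _ | _ <;> try omega
        all_goals rcases (show (y j).γ = 0 ∨ (y j).γ = 1 ∨ (y j).γ = 2 ∨ 3 ≤ (y j).γ by omega)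
          with _ | _ | _ | _ <;> try omega)
    push_cast at this
    omega
  by_cases h5 : X = 5
  · subst h5
    have := L (-1) 1 (-1) 1 0 1 1 1
      (fun j => by
        obtain ⟨⟨_, _, _⟩, _, _, _⟩ := fx j
        rcases (show (x j).a = 0 ∨ (x j).a = 1 by omega) with _ | _ <;> try omega
        all_goals rcases (show (x j).A = 0 ∨ (x j).A = 1 by omega) with _ | _ <;> try omega
        all_goals rcases (show (x j).C = 0 ∨ (x j).C = 1 ∨ (x j).C = 2 ∨ 3 ≤ (x j).C by omega)
          with _ | _ | _ | _ <;> try omega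
        all_goals rcases (show (x j).B = 0 ∨ (x j).B = 1 ∨ (x j).B = 2 ∨ 3 ≤ (x j).B by omega)
          with _ | _ | _ | _ <;> try omega
        all_goals rcases (show (x j).β = 0 ∨ (x j).β = 1 ∨ (x j).β = 2 ∨ 3 ≤ (x j).β by omega)
          with _ | _ | _ | _ <;> try omega
        all_goals rcases (show (x j).γ = 0 ∨ (x j).γ = 1 ∨ (x j).γ = 2 ∨ 3 ≤ (x j).γ by omega)
          with _ | _ | _ | _ <;> try omega)
      (fun j => by
        obtain ⟨⟨_, _, _⟩, _, _, _⟩ := fy j
        rcases (show (y j).a = 0 ∨ (y j).a = 1 by omega) with _ | _ <;> try omega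
        all_goals rcases (show (y j).A = 0 ∨ (y j).A = 1 by omega) with _ | _ <;> try omega
        all_goals rcases (show (y j).C = 0 ∨ (y j).C = 1 ∨ (y j).C = 2 ∨ 3 ≤ (y j).C by omega)
          with _ | _ | _ | _ <;> try omega
        all_goals rcases (show (y j).B = 0 ∨ (y j).B = 1 ∨ (y j).B = 2 ∨ 3 ≤ (y j).B by omega)
          with _ | _ | _ | _ <;> try omega
        all_goals rcases (show (y j).β = 0 ∨ (y j).β = 1 ∨ (y j).β = 2 ∨ 3 ≤ (y j).β by omega)
          with _ | _ | _ | _ <;> try omega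
        all_goals rcases (show (y j).γ = 0 ∨ (y j).γ = 1 ∨ (y j).γ = 2 ∨ 3 ≤ (y j).γ by omega)
          with _ | _ | _ | _ <;> try omega)
    push_cast at this
    omega
  · have := L 0 2 0 2 1 2 4 4
      (fun j => by
        obtain ⟨⟨_, _, _⟩, _, _, _⟩ := fx j
        rcases (show (x j).a = 0 ∨ (x j).a = 1 by omega) with _ | _ <;> try omega
        all_goals rcases (show (x j).A = 0 ∨ (x j).A = 1 by omega) with _ | _ <;> try omega
        all_goals rcases (show (x j).C = 0 ∨ (x j).C = 1 ∨ (x j).C = 2 ∨ 3 ≤ (x j).C by omega)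
          with _ | _ | _ | _ <;> try omega
        all_goals rcases (show (x j).B = 0 ∨ (x j).B = 1 ∨ (x j).B = 2 ∨ 3 ≤ (x j).B by omega)
          with _ | _ | _ | _ <;> try omega
        all_goals rcases (show (x j).β = 0 ∨ (x j).β = 1 ∨ (x j).β = 2 ∨ 3 ≤ (x j).β by omega)
          with _ | _ | _ | _ <;> try omega
        all_goals rcases (show (x j).γ = 0 ∨ (x j).γ = 1 ∨ (x j).γ = 2 ∨ 3 ≤ (x j).γ by omega)
          with _ | _ | _ | _ <;> try omega)
      (fun j => by
        obtain ⟨⟨_, _, _⟩, _, _, _⟩ := fy j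
        rcases (show (y j).a = 0 ∨ (y j).a = 1 by omega) with _ | _ <;> try omega
        all_goals rcases (show (y j).A = 0 ∨ (y j).A = 1 by omega) with _ | _ <;> try omega
        all_goals rcases (show (y j).C = 0 ∨ (y j).C = 1 ∨ (y j).C = 2 ∨ 3 ≤ (y j).C by omega)
          with _ | _ | _ | _ <;> try omega
        all_goals rcases (show (y j).B = 0 ∨ (y j).B = 1 ∨ (y j).B = 2 ∨ 3 ≤ (y j).B by omega)
          with _ | _ | _ | _ <;> try omega
        all_goals rcases (show (y j).β = 0 ∨ (y j).β = 1 ∨ (y j).β = 2 ∨ 3 ≤ (y j).β by omega)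
          with _ | _ | _ | _ <;> try omega
        all_goals rcases (show (y j).γ = 0 ∨ (y j).γ = 1 ∨ (y j).γ = 2 ∨ 3 ≤ (y j).γ by omega)
          with _ | _ | _ | _ <;> try omega)
    push_cast at this
    omega

end Pool.Agent.H560TT
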