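import Mathlib
import Pool.Agent.V11103.EFDefs

/-!
Connected EF1 (outer) allocations for at least `|K|` agents, if the graph has a clique `K` and a
matching of the other vertices into `K`.
-/

set_option autoImplicit false

namespace Pool.Agent.H560TT.Large

open Finset Pool.Agent.V11103.EF

variable {V : Type} [DecidableEq V]

/-- a set with a dominating vertex is connected -/
theorem conn_of_center {G : SimpleGraph V} {S : Finset V} {c : V} (hc : c ∈ S)
    (h : ∀ y ∈ S, y ≠ c → G.Adj y c) : (G.induce (S : Set V)).Connected := by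
  have : Nonempty (S : Set V) := ⟨⟨c, hc⟩⟩
  have key : ∀ y : (S : Set V), (G.induce (S : Set V)).Reachable y ⟨c, hc⟩ := by
    intro y
    by_cases hy : y.1 = c
    · have : y = ⟨c, hc⟩ := Subtype.ext hy
      rw [this]
    · apply SimpleGraph.Adj.reachable
      exact h y.1 y.2 hy
  exact ⟨fun a b => (key a).trans (key b).symm⟩

section

variable (K : Finset V) (m : V → V) {n : ℕ} (v : Fin n → Finset V → ℝ)

/-- valid states -/
structure Valid (B : Fin n → Finset V) : Prop where
  block : ∀ i, B i = ∅ ∨ (∃ x, B i = {x}) ∨ ∃ x, x ∉ K ∧ B i = {x, m x}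
  disj : ∀ i j, i ≠ j → Disjoint (B i) (B j)
  envy : ∀ i j x, x ∉ K → B j = {x, m x} → v i {x} ≤ v i (B i) ∨ v i {m x} ≤ v i (B i)

variable {K m v}

theorem Valid.update {B : Fin n → Finset V} (hB : Valid K m v B)
    (mono : ∀ i S T, S ⊆ T → v i S ≤ v i T) (i : Fin n) (C : Finset V)
    (hC : (∃ x, C = {x}) ∨ ∃ x, x ∉ K ∧ C = {x, m x}) (hd : ∀ j, j ≠ i → Disjoint C (B j))
    (hv : v i (B i) ≤ v i C)
    (he : ∀ i', i' ≠ i → ∀ x, x ∉ K → C = {x, m x} →
      v i' {x} ≤ v i' (B i') ∨ v i' {m x} ≤ v i' (B i')) :
    Valid K m v (Function.update B i C) := by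
  refine ⟨fun j => ?_, fun j l hjl => ?_, fun j l x hx hl => ?_⟩
  · by_cases hj : j = i
    · subst hj
      rw [Function.update_self]
      exact Or.inr hC
    · rw [Function.update_of_ne hj]
      exact hB.block j
  · by_cases hj : j = i
    · subst hj
      rw [Function.update_self, Function.update_of_ne hjl.symm]
      exact hd l hjl.symm
    · rw [Function.update_of_ne hj]
      by_cases hl : l = i
      · subst hl
        rw [Function.update_self]
        exact (hd j hj).symm
      · rw [Function.update_of_ne hl]
        exact hB.disj j l hjl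
  · by_cases hj : j = i
    · subst hj
      rw [Function.update_self]
      by_cases hl' : l = j
      · subst hl'
        rw [Function.update_self] at hl
        left
        apply mono
        rw [hl]
        simp
      · rw [Function.update_of_ne hl'] at hl
        rcases hB.envy j l x hx hl with h | h
        · exact Or.inl (h.trans hv)
        · exact Or.inr (h.trans hv)
    · rw [Function.update_of_ne hj]
      by_cases hl' : l = i
      · subst hl'
        rw [Function.update_self] at hl
        exact he j hj x hx hl
      · rw [Function.update_of_ne hl'] at hl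
        exact hB.envy j l x hx hl

end

/-- a maximal valid state -/
theorem exists_max_state [Fintype V] (K : Finset V) (m : V → V) {n : ℕ}
    (v : Fin n → Finset V → ℝ) :
    ∃ B : Fin n → Finset V, Valid K m v B ∧ ∀ B', Valid K m v B' →
      toLex ((∑ i, v i (B' i) : ℝ), (∑ i, (B' i).card : ℕ)) ≤
        toLex ((∑ i, v i (B i) : ℝ), (∑ i, (B i).card : ℕ)) := by
  have h0 : Valid K m v (fun _ => ∅) := by
    refine ⟨fun i => Or.inl rfl, fun i j _ => by simp, fun i j x hx h => ?_⟩
    have : x ∈ ({x, m x} : Finset V) := by simp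
    rw [← h] at this
    simp at this
  have : Nonempty {B : Fin n → Finset V // Valid K m v B} := ⟨⟨_, h0⟩⟩
  obtain ⟨B, hB⟩ := Finite.exists_max (fun B : {B : Fin n → Finset V // Valid K m v B} =>
    toLex ((∑ i, v i (B.1 i) : ℝ), (∑ i, (B.1 i).card : ℕ)))
  exact ⟨B.1, B.2, fun B' hB' => hB ⟨B', hB'⟩⟩

omit [DecidableEq V] in
theorem sum_update {M : Type} [AddCommMonoid M] {n : ℕ} (f : Fin n → Finset V → M)
    (B : Fin n → Finset V) (i : Fin n) (C : Finset V) :
    ∑ j, f j (Function.update B i C j) = f i C + ∑ j ∈ univ.erase i, f j (B j) := by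
  rw [← Finset.add_sum_erase _ _ (mem_univ i), Function.update_self]
  congr 1
  refine Finset.sum_congr rfl fun j hj => ?_
  rw [Function.update_of_ne (Finset.ne_of_mem_erase hj)]

theorem max_step {K : Finset V} {m : V → V} {n : ℕ} {v : Fin n → Finset V → ℝ}
    (mono : ∀ i S T, S ⊆ T → v i S ≤ v i T) {B : Fin n → Finset V} (hB : Valid K m v B)
    (hmax : ∀ B', Valid K m v B' →
      toLex ((∑ i, v i (B' i) : ℝ), (∑ i, (B' i).card : ℕ)) ≤
        toLex ((∑ i, v i (B i) : ℝ), (∑ i, (B i).card : ℕ)))
    (i : Fin n) (C : Finset V)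
    (hC : (∃ x, C = {x}) ∨ ∃ x, x ∉ K ∧ C = {x, m x}) (hd : ∀ j, j ≠ i → Disjoint C (B j))
    (he : ∀ i', i' ≠ i → ∀ x, x ∉ K → C = {x, m x} →
      v i' {x} ≤ v i' (B i') ∨ v i' {m x} ≤ v i' (B i')) :
    v i C < v i (B i) ∨ (v i C = v i (B i) ∧ C.card ≤ (B i).card) := by
  by_cases hv : v i (B i) ≤ v i C
  · right
    have h1 := hmax _ (hB.update mono i C hC hd hv he)
    rw [Prod.Lex.toLex_le_toLex] at h1
    have e1 := sum_update v B i C
    have e2 := sum_update (fun _ (S : Finset V) => S.card) B i C
    have e3 := Finset.add_sum_erase univ (fun i => v i (B i)) (mem_univ i)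
    have e4 := Finset.add_sum_erase univ (fun i => (B i).card) (mem_univ i)
    simp only at h1 e1 e2 e3 e4
    rw [e1, e2, ← e3, ← e4] at h1
    rcases h1 with h1 | ⟨h1, h2⟩
    · exfalso; linarith
    · exact ⟨by linarith, by omega⟩
  · left
    exact not_le.1 hv

/-- **Main theorem.** -/
theorem main [Fintype V] {G : SimpleGraph V} {K : Finset V} {m : V → V}
    (hK : ∀ a ∈ K, ∀ b ∈ K, a ≠ b → G.Adj a b) (hm : ∀ x, x ∉ K → m x ∈ K ∧ G.Adj x (m x))
    (hinj : ∀ x y, x ∉ K → y ∉ K → m x = m y → x = y) {n : ℕ} (hn : K.card ≤ n)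
    (v : Fin n → Finset V → ℝ) (mono : ∀ i S T, S ⊆ T → v i S ≤ v i T) :
    ∃ A : Fin n → Finset V, IsAllocation A ∧ IsConnectedAllocation G A ∧ IsEF1Outer G v A := by
  classical
  obtain ⟨B, hB, hmax⟩ := exists_max_state K m v
  have step := max_step mono hB hmax
  have hne : ∀ x, x ∉ K → x ≠ m x := fun x hx h => hx (by rw [h]; exact (hm x hx).1)
  have hcard2 : ∀ x, x ∉ K → ({x, m x} : Finset V).card = 2 := fun x hx =>
    Finset.card_pair (hne x hx)
  have f1 : ∀ u, (∀ j, u ∉ B j) → ∀ i, v i {u} ≤ v i (B i) := by
    intro u hu i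
    rcases step i {u} (Or.inl ⟨u, rfl⟩) (fun j _ => Finset.disjoint_singleton_left.2 (hu j))
      (fun i' _ x hx h => by
        have := congrArg Finset.card h
        rw [Finset.card_singleton, hcard2 x hx] at this
        omega) with h | ⟨h, _⟩
    · exact h.le
    · exact h.le
  have f3 : ∀ u, (∀ j, u ∉ B j) → ∀ i, B i ≠ ∅ := by
    intro u hu i hi
    rcases step i {u} (Or.inl ⟨u, rfl⟩) (fun j _ => Finset.disjoint_singleton_left.2 (hu j))
      (fun i' _ x hx h => by
        have := congrArg Finset.card h
        rw [Finset.card_singleton, hcard2 x hx] at this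
        omega) with h | ⟨_, h⟩
    · have := mono i ∅ {u} (Finset.empty_subset _)
      rw [hi] at h
      linarith
    · rw [hi] at h
      simp at h
  have f2 : ∀ x, x ∉ K → (∀ j, x ∉ B j) → (∀ j, m x ∉ B j) → ∀ i,
      v i {x, m x} ≤ v i (B i) := by
    intro x hx h1 h2 i
    rcases step i {x, m x} (Or.inr ⟨x, hx, rfl⟩) (fun j _ => by
        rw [Finset.disjoint_left]
        intro y hy
        rw [Finset.mem_insert, Finset.mem_singleton] at hy
        rcases hy with rfl | rfl
        · exact h1 j
        · exact h2 j)
      (fun i' _ y hy h => by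
        have h3 : y ∈ ({x, m x} : Finset V) := by rw [h]; simp
        rw [Finset.mem_insert, Finset.mem_singleton] at h3
        left
        rcases h3 with rfl | rfl
        · exact f1 _ h1 i'
        · exact f1 _ h2 i') with h | ⟨h, _⟩
    · exact h.le
    · exact h.le
  have f4 : ∀ i x, x ∉ K → B i = {x} → ∃ j, m x ∈ B j := by
    intro i x hx hi
    by_contra hcon
    push Not at hcon
    rcases step i {x, m x} (Or.inr ⟨x, hx, rfl⟩) (fun j hj => by
        rw [Finset.disjoint_left]
        intro y hy
        rw [Finset.mem_insert, Finset.mem_singleton] at hy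
        rcases hy with rfl | rfl
        · have := hB.disj i j hj.symm
          rw [hi, Finset.disjoint_singleton_left] at this
          exact this
        · exact hcon j)
      (fun i' _ y hy h => by
        have h3 : y ∈ ({x, m x} : Finset V) := by rw [h]; simp
        rw [Finset.mem_insert, Finset.mem_singleton] at h3
        rcases h3 with rfl | rfl
        · right
          exact f1 _ hcon i'
        · exact absurd (hm x hx).1 hy) with h | ⟨_, h⟩
    · have := mono i {x} {x, m x} (by simp)
      rw [hi] at h
      linarith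
    · rw [hi, hcard2 x hx, Finset.card_singleton] at h
      omega
  have f5 : ∀ i x, x ∉ K → B i = {m x} → ∃ j, x ∈ B j := by
    intro i x hx hi
    by_contra hcon
    push Not at hcon
    rcases step i {x, m x} (Or.inr ⟨x, hx, rfl⟩) (fun j hj => by
        rw [Finset.disjoint_left]
        intro y hy
        rw [Finset.mem_insert, Finset.mem_singleton] at hy
        rcases hy with rfl | rfl
        · exact hcon j
        · have := hB.disj i j hj.symm
          rw [hi, Finset.disjoint_singleton_left] at this
          exact this)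
      (fun i' _ y hy h => by
        have h3 : y ∈ ({x, m x} : Finset V) := by rw [h]; simp
        rw [Finset.mem_insert, Finset.mem_singleton] at h3
        rcases h3 with rfl | rfl
        · left
          exact f1 _ hcon i'
        · exact absurd (hm x hx).1 hy) with h | ⟨_, h⟩
    · have := mono i {m x} {x, m x} (by simp)
      rw [hi] at h
      linarith
    · rw [hi, hcard2 x hx, Finset.card_singleton] at h
      omega
  have f6 : ∀ i x, x ∉ K → B i = {x} → ∃ j, B j = {m x} := by
    intro i x hx hi
    obtain ⟨j, hj⟩ := f4 i x hx hi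
    refine ⟨j, ?_⟩
    rcases hB.block j with h | ⟨y, h⟩ | ⟨y, hy, h⟩
    · rw [h] at hj; simp at hj
    · rw [h, Finset.mem_singleton] at hj
      rw [h, hj]
    · exfalso
      rw [h, Finset.mem_insert, Finset.mem_singleton] at hj
      rcases hj with hj | hj
      · exact hy (hj ▸ (hm x hx).1)
      · have hxy := hinj x y hx hy hj
        subst hxy
        by_cases hij : i = j
        · subst hij
          have := congrArg Finset.card (hi.symm.trans h)
          rw [Finset.card_singleton, hcard2 x hx] at this
          omega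
        · have := hB.disj i j hij
          rw [hi, h, Finset.disjoint_singleton_left] at this
          simp at this
  have f7 : ∀ x, x ∉ K → (∀ j, x ∉ B j) → ∀ j, m x ∉ B j := by
    intro x hx h1 j hj
    rcases hB.block j with h | ⟨y, h⟩ | ⟨y, hy, h⟩
    · rw [h] at hj; simp at hj
    · rw [h, Finset.mem_singleton] at hj
      obtain ⟨j', hj'⟩ := f5 j x hx (by rw [h, hj])
      exact h1 j' hj'
    · have hj2 := hj
      rw [h, Finset.mem_insert, Finset.mem_singleton] at hj2
      rcases hj2 with hj2 | hj2
      · exact hy (hj2 ▸ (hm x hx).1)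
      · have hxy := hinj x y hx hy hj2
        subst hxy
        exact h1 j (by rw [h]; simp)
  have f8 : ∀ x, x ∉ K → (∀ j, m x ∉ B j) → ∀ j, x ∉ B j := by
    intro x hx h1 j hj
    rcases hB.block j with h | ⟨y, h⟩ | ⟨y, hy, h⟩
    · rw [h] at hj; simp at hj
    · rw [h, Finset.mem_singleton] at hj
      obtain ⟨j', hj'⟩ := f4 j x hx (by rw [h, hj])
      exact h1 j' hj'
    · have hj2 := hj
      rw [h, Finset.mem_insert, Finset.mem_singleton] at hj2
      rcases hj2 with hj2 | hj2
      · subst hj2
        exact h1 j (by rw [h]; simp)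
      · exact hx (hj2 ▸ (hm y hy).1)
  -- a block has no strong envy
  have blk : ∀ (A : Fin n → Finset V), (∀ i, B i ⊆ A i) → ∀ i j, A j = B j →
      v i (A j) ≤ v i (A i) ∨ ∃ o, IsOuter G (A j) o ∧ v i ((A j).erase o) ≤ v i (A i) := by
    intro A hA i j hj
    have hi := mono i _ _ (hA i)
    rw [hj]
    rcases hB.block j with h | ⟨y, h⟩ | ⟨y, hy, h⟩
    · left
      rw [h]
      exact mono i _ _ (Finset.empty_subset _)
    · right
      refine ⟨y, ⟨by rw [h]; simp, Or.inl (by rw [h]; simp)⟩, ?_⟩
      rw [h]
      have : ({y} : Finset V).erase y = ∅ := by simp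
      rw [this]
      exact mono i _ _ (Finset.empty_subset _)
    · right
      have e1 : ({y, m y} : Finset V).erase y = {m y} := by
        rw [Finset.erase_insert]
        simpa using hne y hy
      have e2 : ({y, m y} : Finset V).erase (m y) = {y} := by
        rw [Finset.pair_comm, Finset.erase_insert]
        simpa using (hne y hy).symm
      have c1 : ∀ z : V, (G.induce ((({z} : Finset V) : Finset V) : Set V)).Connected := fun z =>
        conn_of_center (c := z) (by simp) (fun w hw hwz => absurd (by simpa using hw) hwz)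
      rcases hB.envy i j y hy h with h' | h'
      · refine ⟨m y, ⟨by rw [h]; simp, Or.inr ?_⟩, ?_⟩
        · rw [h, e2]; exact c1 y
        · rw [h, e2]; exact h'.trans hi
      · refine ⟨y, ⟨by rw [h]; simp, Or.inr ?_⟩, ?_⟩
        · rw [h, e1]; exact c1 (m y)
        · rw [h, e1]; exact h'.trans hi
  have blkc : ∀ j, (B j).Nonempty → (G.induce ((B j : Finset V) : Set V)).Connected := by
    intro j hj
    rcases hB.block j with h | ⟨y, h⟩ | ⟨y, hy, h⟩
    · rw [h] at hj; simp at hj
    · exact conn_of_center (c := y) (by rw [h]; simp) (fun w hw hwz => by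
        rw [h, Finset.mem_singleton] at hw
        exact absurd hw hwz)
    · exact conn_of_center (c := m y) (by rw [h]; simp) (fun w hw hwz => by
        rw [h, Finset.mem_insert, Finset.mem_singleton] at hw
        rcases hw with rfl | hw
        · exact (hm _ hy).2
        · exact absurd hw hwz)
  by_cases hU : ∀ u, ∃ j, u ∈ B j
  · exact ⟨B, ⟨hB.disj, hU⟩, blkc, fun i j => blk B (fun _ => subset_rfl) i j rfl⟩
  push Not at hU
  obtain ⟨u0, hu0⟩ := hU
  have hV : Nonempty V := ⟨u0⟩
  -- unassigned vertices of `K`, agents without a vertex of `K`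
  set D : Finset V := K.filter fun k => ∀ j, k ∉ B j with hD
  set S : Finset (Fin n) := univ.filter fun i => ∀ y ∈ B i, y ∉ K with hS
  have hDm : ∀ k, k ∈ D ↔ k ∈ K ∧ ∀ j, k ∉ B j := fun k => by rw [hD, Finset.mem_filter]
  have hSm : ∀ i, i ∈ S ↔ ∀ y ∈ B i, y ∉ K := fun i => by
    rw [hS, Finset.mem_filter]; simp
  have hcount : D.card ≤ S.card := by
    have h1 : ∀ i, i ∈ Sᶜ → ∃ y, y ∈ B i ∧ y ∈ K := fun i hi => by
      rw [Finset.mem_compl, hSm] at hi
      push Not at hi
      exact hi
    choose! y hy using h1
    have h2 : (Sᶜ).card ≤ (K \ D).card := by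
      refine Finset.card_le_card_of_injOn y (fun i hi => ?_) (fun i hi j hj hij => ?_)
      · have h3 := hy i hi
        rw [Finset.mem_coe, Finset.mem_sdiff, hDm]
        exact ⟨h3.2, fun h => h.2 i h3.1⟩
      · by_contra hne'
        have h3 := hy i hi
        have h4 := hy j hj
        exact (Finset.disjoint_left.1 (hB.disj i j hne')) h3.1 (by rw [hij]; exact h4.1)
    have h3 : D ⊆ K := Finset.filter_subset _ _
    have h4 := Finset.card_sdiff_add_card_eq_card h3
    have h5 := Finset.card_compl S
    rw [Fintype.card_fin] at h5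
    have h6 : S.card ≤ n := by simpa using Finset.card_le_univ S
    omega
  -- hosts
  have hhost : ∀ i : S, ∃ j x, x ∉ K ∧ B i.1 = {x} ∧ B j = {m x} := by
    rintro ⟨i, hi⟩
    rw [hSm] at hi
    rcases hB.block i with h | ⟨y, h⟩ | ⟨y, hy, h⟩
    · exact absurd h (f3 u0 hu0 i)
    · have hyK : y ∉ K := hi y (by rw [h]; simp)
      obtain ⟨j, hj⟩ := f6 i y hyK h
      exact ⟨j, y, hyK, h, hj⟩
    · exact absurd (hm y hy).1 (hi (m y) (by rw [h]; simp))
  choose host hx hxK hBx hBh using hhost
  have hostinj : Function.Injective host := by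
    intro i j hij
    have h1 : ({m (hx i)} : Finset V) = {m (hx j)} := by rw [← hBh i, ← hBh j, hij]
    rw [Finset.singleton_inj] at h1
    have h2 := hinj _ _ (hxK i) (hxK j) h1
    by_contra hne'
    have h3 : i.1 ≠ j.1 := fun h => hne' (Subtype.ext h)
    have := hB.disj _ _ h3
    rw [hBx i, hBx j, h2] at this
    simp at this
  have hemb : Nonempty (D ↪ S) := by
    apply Function.Embedding.nonempty_of_card_le
    simpa using hcount
  obtain ⟨emb⟩ := hemb
  have hπex : ∀ y, (∀ j, y ∉ B j) → (if y ∈ K then y else m y) ∈ D := by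
    intro y hy
    split_ifs with h
    · exact (hDm y).2 ⟨h, hy⟩
    · exact (hDm _).2 ⟨(hm y h).1, f7 y h hy⟩
  have hn0 : Nonempty (Fin n) := ⟨host (emb ⟨_, hπex u0 hu0⟩)⟩
  let g : V → Fin n := fun k => if h : k ∈ D then host (emb ⟨k, h⟩) else Classical.choice hn0
  have hg : ∀ k (h : k ∈ D), g k = host (emb ⟨k, h⟩) := fun k h => by simp only [g, dif_pos h]
  have ginj : ∀ k ∈ D, ∀ l ∈ D, g k = g l → k = l := by
    intro k hk l hl hkl
    rw [hg k hk, hg l hl] at hkl
    have := emb.injective (hostinj hkl)
    exact congrArg Subtype.val this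
  have ghost : ∀ k ∈ D, ∃ k' ∈ K, B (g k) = {k'} := by
    intro k hk
    rw [hg k hk]
    exact ⟨_, (hm _ (hxK (emb ⟨k, hk⟩))).1, hBh (emb ⟨k, hk⟩)⟩
  let π : V → V := fun y => if y ∈ K then y else m y
  let A : Fin n → Finset V := fun j => B j ∪ univ.filter fun y => (∀ l, y ∉ B l) ∧ g (π y) = j
  have hAm : ∀ j y, y ∈ A j ↔ y ∈ B j ∨ ((∀ l, y ∉ B l) ∧ g (π y) = j) := fun j y => by
    simp only [A, Finset.mem_union, Finset.mem_filter, Finset.mem_univ, true_and]
  have hBA : ∀ i, B i ⊆ A i := fun i => Finset.subset_union_left
  have halloc : IsAllocation A := by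
    refine ⟨fun i j hij => ?_, fun y => ?_⟩
    · rw [Finset.disjoint_left]
      intro y hy hy'
      rw [hAm] at hy hy'
      rcases hy with hy | hy
      · rcases hy' with hy' | hy'
        · exact (Finset.disjoint_left.1 (hB.disj i j hij)) hy hy'
        · exact hy'.1 i hy
      · rcases hy' with hy' | hy'
        · exact hy.1 j hy'
        · exact hij (hy.2.symm.trans hy'.2)
    · by_cases h : ∃ j, y ∈ B j
      · obtain ⟨j, hj⟩ := h
        exact ⟨j, (hAm _ _).2 (Or.inl hj)⟩
      · push Not at h
        exact ⟨g (π y), (hAm _ _).2 (Or.inr ⟨h, rfl⟩)⟩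
  -- the two kinds of shares
  have hshape : ∀ j, A j = B j ∨ ∃ k k' : V, k ∈ D ∧ k' ∈ K ∧ k' ≠ k ∧ B j = {k'} ∧
      ((∃ x, x ∉ K ∧ m x = k ∧ A j = {k', x, k}) ∨ A j = {k', k}) := by
    intro j
    by_cases hj : ∃ y, (∀ l, y ∉ B l) ∧ g (π y) = j
    · right
      obtain ⟨y0, hy0, hy1⟩ := hj
      have hk : π y0 ∈ D := hπex y0 hy0
      obtain ⟨k', hk', hBj⟩ := ghost _ hk
      rw [hy1] at hBj
      have hkk : k' ≠ π y0 := by
        intro h
        refine ((hDm _).1 hk).2 j ?_
        rw [hBj, h]
        simp
      refine ⟨π y0, k', hk, hk', hkk, hBj, ?_⟩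
      have hmem : ∀ y, y ∈ A j ↔ y = k' ∨ π y = π y0 := by
        intro y
        rw [hAm, hBj, Finset.mem_singleton]
        constructor
        · rintro (h | ⟨h1, h2⟩)
          · exact Or.inl h
          · right
            exact ginj _ (hπex y h1) _ hk (h2.trans hy1.symm)
        · rintro (h | h)
          · exact Or.inl h
          · right
            have h1 : ∀ l, y ∉ B l := by
              by_cases hyK : y ∈ K
              · have : π y = y := by simp only [π, if_pos hyK]
                rw [this] at h
                rw [h]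
                exact ((hDm _).1 hk).2
              · have : π y = m y := by simp only [π, if_neg hyK]
                rw [this] at h
                apply f8 y hyK
                rw [h]
                exact ((hDm _).1 hk).2
            exact ⟨h1, by rw [h, hy1]⟩
      have hkK : π y0 ∈ K := ((hDm _).1 hk).1
      have hπk : π (π y0) = π y0 := by
        show (if π y0 ∈ K then π y0 else m (π y0)) = π y0
        rw [if_pos hkK]
      by_cases hx : ∃ x, x ∉ K ∧ m x = π y0
      · left
        obtain ⟨x, hx, hxk⟩ := hx
        refine ⟨x, hx, hxk, ?_⟩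
        ext y
        rw [hmem]
        simp only [Finset.mem_insert, Finset.mem_singleton]
        constructor
        · rintro (h | h)
          · exact Or.inl h
          · right
            by_cases hyK : y ∈ K
            · right
              have : π y = y := by simp only [π, if_pos hyK]
              rw [← this, h]
            · left
              have : π y = m y := by simp only [π, if_neg hyK]
              rw [this, ← hxk] at h
              exact hinj _ _ hyK hx h
        · rintro (h | h | h)
          · exact Or.inl h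
          · right
            rw [h, ← hxk]
            simp only [π, if_neg hx]
          · right
            rw [h, hπk]
      · right
        ext y
        rw [hmem]
        simp only [Finset.mem_insert, Finset.mem_singleton]
        constructor
        · rintro (h | h)
          · exact Or.inl h
          · right
            by_cases hyK : y ∈ K
            · have : π y = y := by simp only [π, if_pos hyK]
              rw [← this, h]
            · exfalso
              have : π y = m y := by simp only [π, if_neg hyK]
              exact hx ⟨y, hyK, by rw [← this, h]⟩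
        · rintro (h | h)
          · exact Or.inl h
          · right
            rw [h, hπk]
    · left
      ext y
      rw [hAm]
      constructor
      · rintro (h | h)
        · exact h
        · exact absurd ⟨y, h⟩ hj
      · exact Or.inl
  refine ⟨A, halloc, ?_, ?_⟩
  · intro j hj
    rcases hshape j with h | ⟨k, k', hk, hk', hkk, hBj, ⟨x, hx, hxk, h⟩ | h⟩
    · rw [h] at hj ⊢
      exact blkc j hj
    · rw [h]
      have hkK := ((hDm _).1 hk).1
      refine conn_of_center (c := k) (by simp) (fun y hy hyk => ?_)
      simp only [Finset.mem_insert, Finset.mem_singleton] at hy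
      rcases hy with rfl | rfl | rfl
      · exact hK _ hk' _ hkK hkk
      · rw [← hxk]; exact (hm _ hx).2
      · exact absurd rfl hyk
    · rw [h]
      have hkK := ((hDm _).1 hk).1
      refine conn_of_center (c := k) (by simp) (fun y hy hyk => ?_)
      simp only [Finset.mem_insert, Finset.mem_singleton] at hy
      rcases hy with rfl | rfl
      · exact hK _ hk' _ hkK hkk
      · exact absurd rfl hyk
  · intro i j
    rcases hshape j with h | ⟨k, k', hk, hk', hkk, hBj, ⟨x, hx, hxk, h⟩ | h⟩
    · exact blk A hBA i j h
    · right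
      have hkun := ((hDm _).1 hk).2
      have hxk' : k' ≠ x := fun h' => hx (h' ▸ hk')
      have he : (A j).erase k' = {x, k} := by
        rw [h, Finset.erase_insert]
        simp only [Finset.mem_insert, Finset.mem_singleton, not_or]
        exact ⟨hxk', hkk⟩
      refine ⟨k', ⟨by rw [h]; simp, Or.inr ?_⟩, ?_⟩
      · rw [he]
        refine conn_of_center (c := k) (by simp) (fun y hy hyk => ?_)
        simp only [Finset.mem_insert, Finset.mem_singleton] at hy
        rcases hy with rfl | rfl
        · rw [← hxk]; exact (hm _ hx).2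
        · exact absurd rfl hyk
      · rw [he, ← hxk]
        refine (f2 x hx ?_ ?_ i).trans (mono i _ _ (hBA i))
        · exact f8 x hx (by rw [hxk]; exact hkun)
        · rw [hxk]; exact hkun
    · right
      have hkun := ((hDm _).1 hk).2
      have he : (A j).erase k' = {k} := by
        rw [h, Finset.erase_insert]
        simpa using hkk
      refine ⟨k', ⟨by rw [h]; simp, Or.inr ?_⟩, ?_⟩
      · rw [he]
        exact conn_of_center (c := k) (by simp) (fun w hw hwz => absurd (by simpa using hw) hwz)
      · rw [he]
        exact (f1 k hkun i).trans (mono i _ _ (hBA i))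

end Pool.Agent.H560TT.Large
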